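import Pool.Agent.U863.CT.Fin

/-!
# Groupoid-like generating sets: the cover is a free product of the vertex groups and a free group

Owner helper863.
-/

set_option autoImplicit false

namespace Pool.Agent.U863.CT

open Pool.Agent.Y462.SS

section gpd

variable {G : Type} [Group G]

/-- the set `N` contains `1`, is closed under inverses, and `a⁻¹ b ∈ N` is a transitive relation on
`N ∖ {1}` -/
structure CliqueSet (N : Set G) : Prop where
  one : 1 ∈ N
  inv : ∀ a ∈ N, a⁻¹ ∈ N
  trans : ∀ a ∈ N, ∀ b ∈ N, ∀ c ∈ N, a ≠ 1 → b ≠ 1 → c ≠ 1 → a⁻¹ * b ∈ N → b⁻¹ * c ∈ N →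
    a⁻¹ * c ∈ N

/-- the class of `a` -/
def cls (N : Set G) (a : G) : Set G := {b | b ∈ N ∧ b ≠ 1 ∧ a⁻¹ * b ∈ N}

/-- `g` is an arrow from `p` to `q` -/
def Arrow (N : Set G) (p q : Set G) (g : G) : Prop :=
  g ∈ N ∧ ((g = 1 ∧ p = q) ∨ (g ≠ 1 ∧ cls N g = p ∧ cls N g⁻¹ = q))

variable {N : Set G}

theorem cls_eq (h : CliqueSet N) {a b : G} (ha : a ∈ N) (ha1 : a ≠ 1) (hb : b ∈ N) (hb1 : b ≠ 1)
    (hab : a⁻¹ * b ∈ N) : cls N a = cls N b := by
  have hba : b⁻¹ * a ∈ N := by
    have := h.inv _ hab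
    rwa [mul_inv_rev, inv_inv] at this
  ext c
  constructor
  · rintro ⟨h1, h2, h3⟩
    exact ⟨h1, h2, h.trans b hb a ha c h1 hb1 ha1 h2 hba h3⟩
  · rintro ⟨h1, h2, h3⟩
    exact ⟨h1, h2, h.trans a ha b hb c h1 ha1 hb1 h2 hab h3⟩

theorem of_cls_eq (h : CliqueSet N) {a b : G} (hb : b ∈ N) (hb1 : b ≠ 1)
    (hab : cls N a = cls N b) : a⁻¹ * b ∈ N := by
  have h1 : b ∈ cls N b := ⟨hb, hb1, by rw [inv_mul_cancel]; exact h.one⟩
  rw [← hab] at h1
  exact h1.2.2

theorem Arrow.one (h : CliqueSet N) (p : Set G) : Arrow N p p 1 := ⟨h.one, Or.inl ⟨rfl, rfl⟩⟩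

theorem Arrow.inv (h : CliqueSet N) {p q : Set G} {g : G} (hg : Arrow N p q g) :
    Arrow N q p g⁻¹ := by
  refine ⟨h.inv g hg.1, ?_⟩
  rcases hg.2 with ⟨rfl, rfl⟩ | ⟨h1, h2, h3⟩
  · exact Or.inl ⟨inv_one, rfl⟩
  · refine Or.inr ⟨inv_ne_one.2 h1, h3, ?_⟩
    rw [inv_inv]
    exact h2

theorem Arrow.mul (h : CliqueSet N) {p q r : Set G} {g k : G} (hg : Arrow N p q g)
    (hk : Arrow N q r k) : Arrow N p r (g * k) := by
  rcases hg with ⟨hgN, ⟨rfl, rfl⟩ | ⟨hg1, hgp, hgq⟩⟩
  · rw [one_mul]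
    exact hk
  rcases hk with ⟨hkN, ⟨rfl, rfl⟩ | ⟨hk1, hkq, hkr⟩⟩
  · rw [mul_one]
    exact ⟨hgN, Or.inr ⟨hg1, hgp, hgq⟩⟩
  have h1 : g * k ∈ N := by
    have h2 := of_cls_eq h hkN hk1 (hgq.trans hkq.symm)
    rwa [inv_inv] at h2
  refine ⟨h1, ?_⟩
  by_cases h2 : g * k = 1
  · refine Or.inl ⟨h2, ?_⟩
    have h3 : k⁻¹ = g := (eq_inv_of_mul_eq_one_left h2).symm
    rw [← hgp, ← hkr, h3]
  · refine Or.inr ⟨h2, ?_, ?_⟩
    · rw [← hgp]
      refine (cls_eq h hgN hg1 h1 h2 ?_).symm
      rw [inv_mul_cancel_left]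
      exact hkN
    · rw [← hkr]
      refine (cls_eq h (h.inv k hkN) (inv_ne_one.2 hk1) (h.inv _ h1) (inv_ne_one.2 h2) ?_).symm
      rw [inv_inv, mul_inv_rev, mul_inv_cancel_left]
      exact h.inv g hgN

/-- every element of `N` is an arrow -/
theorem exists_arrow {g : G} (hg : g ∈ N) : ∃ p q, Arrow N p q g := by
  by_cases h1 : g = 1
  · exact ⟨∅, ∅, hg, Or.inl ⟨h1, rfl⟩⟩
  · exact ⟨_, _, hg, Or.inr ⟨h1, rfl, rfl⟩⟩

/-- the group of the arrows from `p` to `p` -/
def vert (h : CliqueSet N) (p : Set G) : Subgroup G where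
  carrier := {g | Arrow N p p g}
  one_mem' := Arrow.one h p
  mul_mem' := fun ha hb => Arrow.mul h ha hb
  inv_mem' := fun ha => Arrow.inv h ha

/-- connected objects -/
def conn (h : CliqueSet N) : Setoid (Set G) where
  r p q := ∃ g, Arrow N p q g
  iseqv :=
    { refl := fun p => ⟨1, Arrow.one h p⟩
      symm := fun ⟨g, hg⟩ => ⟨g⁻¹, Arrow.inv h hg⟩
      trans := fun ⟨g, hg⟩ ⟨k, hk⟩ => ⟨g * k, Arrow.mul h hg hk⟩ }

/-- the base object of the component of `p` -/
noncomputable def base (h : CliqueSet N) (p : Set G) : Set G :=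
  (Quotient.mk (conn h) p).out

theorem exists_bar (h : CliqueSet N) (p : Set G) : ∃ g, Arrow N (base h p) p g :=
  Quotient.exact (s := conn h) (Quotient.out_eq (Quotient.mk (conn h) p))

/-- an arrow from the base object to `p` -/
noncomputable def bar (h : CliqueSet N) (p : Set G) : G := (exists_bar h p).choose

theorem bar_arrow (h : CliqueSet N) (p : Set G) : Arrow N (base h p) p (bar h p) :=
  (exists_bar h p).choose_spec

theorem base_eq (h : CliqueSet N) {p q : Set G} {g : G} (hg : Arrow N p q g) :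
    base h p = base h q := by
  have h1 : Quotient.mk (conn h) p = Quotient.mk (conn h) q := Quotient.sound ⟨g, hg⟩
  rw [base, base, h1]

/-- the target -/
abbrev Tgt (h : CliqueSet N) : Type :=
  Monoid.Coprod (Monoid.CoprodI (fun p : Set G => vert h p)) (FreeGroup (Set G))

/-- an element of a vertex group -/
noncomputable def io (h : CliqueSet N) (p : Set G) (g : G) : Tgt h := by
  classical
  exact if hg : g ∈ vert h p then
    Monoid.Coprod.inl (Monoid.CoprodI.of (M := fun p : Set G => vert h p) (i := p) ⟨g, hg⟩) else 1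

theorem io_of (h : CliqueSet N) (p : Set G) (g : G) (hg : g ∈ vert h p) :
    io h p g =
      Monoid.Coprod.inl (Monoid.CoprodI.of (M := fun p : Set G => vert h p) (i := p) ⟨g, hg⟩) := by
  rw [io, dif_pos hg]

theorem io_mul (h : CliqueSet N) (p : Set G) (g k : G) (hg : g ∈ vert h p) (hk : k ∈ vert h p) :
    io h p (g * k) = io h p g * io h p k := by
  rw [io_of h p g hg, io_of h p k hk, io_of h p _ (mul_mem hg hk), ← map_mul, ← map_mul]
  rfl

theorem io_one (h : CliqueSet N) (p : Set G) : io h p 1 = 1 := by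
  have h1 := io_mul h p 1 1 (one_mem _) (one_mem _)
  rw [mul_one] at h1
  exact (mul_eq_left.1 h1.symm)

/-- the free letters -/
noncomputable def xx (h : CliqueSet N) (p : Set G) : Tgt h := Monoid.Coprod.inr (FreeGroup.of p)

/-- the value at an arrow -/
noncomputable def th (h : CliqueSet N) (p q : Set G) (g : G) : Tgt h :=
  (xx h p)⁻¹ * io h (base h p) (bar h p * g * (bar h q)⁻¹) * xx h q

theorem th_mem (h : CliqueSet N) {p q : Set G} {g : G} (hg : Arrow N p q g) :
    bar h p * g * (bar h q)⁻¹ ∈ vert h (base h p) := by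
  have h1 := Arrow.mul h (Arrow.mul h (bar_arrow h p) hg) (Arrow.inv h (bar_arrow h q))
  rw [← base_eq h hg] at h1
  exact h1

theorem th_mul (h : CliqueSet N) {p q r : Set G} {g k : G} (hg : Arrow N p q g)
    (hk : Arrow N q r k) : th h p r (g * k) = th h p q g * th h q r k := by
  have h1 : bar h p * (g * k) * (bar h r)⁻¹ =
      (bar h p * g * (bar h q)⁻¹) * (bar h q * k * (bar h r)⁻¹) := by group
  have h2 := th_mem h hk
  rw [← base_eq h hg] at h2
  rw [th, th, th, h1, ← base_eq h hg, io_mul h _ _ _ (th_mem h hg) h2]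
  group

theorem th_one (h : CliqueSet N) (p : Set G) : th h p p 1 = 1 := by
  rw [th, mul_one, mul_inv_cancel, io_one]
  group

/-- the values on the generators -/
noncomputable def thg (h : CliqueSet N) (g : N) : Tgt h := by
  classical
  exact if (g : G) = 1 then 1 else th h (cls N g.1) (cls N (g.1)⁻¹) g.1

theorem thg_eq (h : CliqueSet N) {p q : Set G} (g : N) (hg : Arrow N p q g.1) :
    thg h g = th h p q g.1 := by
  rcases hg.2 with ⟨h1, rfl⟩ | ⟨h1, rfl, rfl⟩
  · rw [thg, if_pos h1, h1, th_one]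
  · rw [thg, if_neg h1]

theorem thg_mul (h : CliqueSet N) (a b c : N) (habc : (a : G) * b = c) :
    thg h a * thg h b = thg h c := by
  by_cases ha : (a : G) = 1
  · have h1 : b = c := Subtype.ext (by rw [← habc, ha, one_mul])
    rw [thg, if_pos ha, one_mul, h1]
  by_cases hb : (b : G) = 1
  · have h1 : a = c := Subtype.ext (by rw [← habc, hb, mul_one])
    rw [thg_eq h b ⟨b.2, Or.inl ⟨hb, rfl⟩⟩ (p := ∅), hb, th_one, mul_one, h1]
  have h1 : Arrow N (cls N a.1) (cls N (a.1)⁻¹) a.1 := ⟨a.2, Or.inr ⟨ha, rfl, rfl⟩⟩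
  have h2 : cls N (a.1)⁻¹ = cls N b.1 := by
    refine cls_eq h (h.inv _ a.2) (inv_ne_one.2 ha) b.2 hb ?_
    rw [inv_inv, habc]
    exact c.2
  have h3 : Arrow N (cls N (a.1)⁻¹) (cls N (b.1)⁻¹) b.1 := ⟨b.2, Or.inr ⟨hb, h2.symm, rfl⟩⟩
  have h4 : Arrow N (cls N a.1) (cls N (b.1)⁻¹) c.1 := habc ▸ Arrow.mul h h1 h3
  rw [thg_eq h a h1, thg_eq h b h3, thg_eq h c h4, ← th_mul h h1 h3, habc]

/-- the homomorphism from the cover to the free product -/
noncomputable def Th (h : CliqueSet N) : Cover N →* Tgt h :=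
  PresentedGroup.toGroup (f := thg h) (by
    have h1 : ∀ a : N, (a : G) = 1 → thg h a = 1 := fun a ha => by rw [thg, if_pos ha]
    rintro r ⟨l, hl, hl1, rfl⟩
    match l, hl, hl1 with
    | [], _, _ => simp
    | [a], _, h2 =>
      simp only [List.map_cons, List.map_nil, List.prod_cons, List.prod_nil, mul_one] at h2 ⊢
      rw [FreeGroup.lift_apply_of]
      exact h1 a h2
    | [a, b], _, h2 =>
      simp only [List.map_cons, List.map_nil, List.prod_cons, List.prod_nil, mul_one] at h2 ⊢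
      rw [map_mul, FreeGroup.lift_apply_of, FreeGroup.lift_apply_of,
        thg_mul h a b ⟨1, h.one⟩ h2]
      exact h1 _ rfl
    | [a, b, c], _, h2 =>
      simp only [List.map_cons, List.map_nil, List.prod_cons, List.prod_nil, mul_one] at h2 ⊢
      rw [map_mul, map_mul, FreeGroup.lift_apply_of, FreeGroup.lift_apply_of,
        FreeGroup.lift_apply_of]
      have h3 : (b : G) * c = (a : G)⁻¹ := (eq_inv_of_mul_eq_one_right h2)
      rw [thg_mul h b c ⟨(a : G)⁻¹, h.inv _ a.2⟩ h3,
        thg_mul h a ⟨(a : G)⁻¹, h.inv _ a.2⟩ ⟨1, h.one⟩ (mul_inv_cancel _)]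
      exact h1 _ rfl
    | a :: b :: c :: d :: l, hl, _ => simp at hl; omega)

theorem Th_of (h : CliqueSet N) (a : N) : Th h (PresentedGroup.of a) = thg h a :=
  PresentedGroup.toGroup.of _

theorem of_mul' (h : CliqueSet N) (a b c : N) (habc : (a : G) * b = c) :
    (PresentedGroup.of a * PresentedGroup.of b : Cover N) = PresentedGroup.of c :=
  of_mul a b c (h.inv _ c.2) habc

/-- the homomorphism back -/
noncomputable def Bk (h : CliqueSet N) : Tgt h →* Cover N :=
  Monoid.Coprod.lift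
    (Monoid.CoprodI.lift fun p =>
      { toFun := fun g : vert h p => (PresentedGroup.of ⟨g.1, g.2.1⟩ : Cover N)
        map_one' := of_one h.one
        map_mul' := fun a b => (of_mul' h ⟨a.1, a.2.1⟩ ⟨b.1, b.2.1⟩ _ rfl).symm })
    (FreeGroup.lift fun p => (PresentedGroup.of ⟨bar h p, (bar_arrow h p).1⟩ : Cover N))

theorem Bk_xx (h : CliqueSet N) (p : Set G) :
    Bk h (xx h p) = PresentedGroup.of ⟨bar h p, (bar_arrow h p).1⟩ := by
  rw [Bk, xx, Monoid.Coprod.lift_apply_inr, FreeGroup.lift_apply_of]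

theorem Bk_io (h : CliqueSet N) (p : Set G) (g : G) (hg : g ∈ vert h p) :
    Bk h (io h p g) = PresentedGroup.of ⟨g, hg.1⟩ := by
  rw [Bk, io_of h p g hg, Monoid.Coprod.lift_apply_inl, Monoid.CoprodI.lift_of]
  rfl

theorem Bk_Th (h : CliqueSet N) (γ : Cover N) : Bk h (Th h γ) = γ := by
  have h1 : (Bk h).comp (Th h) = MonoidHom.id _ := by
    apply PresentedGroup.ext
    intro a
    rw [MonoidHom.comp_apply, MonoidHom.id_apply, Th_of]
    obtain ⟨p, q, hpq⟩ := exists_arrow a.2
    rw [thg_eq h a hpq, th, map_mul, map_mul, map_inv, Bk_xx, Bk_xx, Bk_io h _ _ (th_mem h hpq)]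
    have hp := bar_arrow h p
    have hq := bar_arrow h q
    have hpa := Arrow.mul h hp hpq
    have h2 : (PresentedGroup.of ⟨bar h p * a.1 * (bar h q)⁻¹, (th_mem h hpq).1⟩ : Cover N) *
        PresentedGroup.of ⟨bar h q, hq.1⟩ = PresentedGroup.of ⟨bar h p * a.1, hpa.1⟩ :=
      of_mul' h _ _ _ (inv_mul_cancel_right _ _)
    have h3 : (PresentedGroup.of ⟨bar h p, hp.1⟩ : Cover N) * PresentedGroup.of a =
        PresentedGroup.of ⟨bar h p * a.1, hpa.1⟩ := of_mul' h _ _ _ rfl
    rw [mul_assoc, h2, ← h3, inv_mul_cancel_left]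
  exact DFunLike.congr_fun h1 γ

theorem Th_injective (h : CliqueSet N) : Function.Injective (Th h) :=
  Function.LeftInverse.injective (Bk_Th h)

end gpd

/-! ## free products of families -/

section fam

variable {ι : Type} {A : ι → Type} [∀ i, Group (A i)]

/-- the subgroup generated by the factors in `s` -/
def part (A : ι → Type) [∀ i, Group (A i)] (s : Finset ι) : Subgroup (Monoid.CoprodI A) :=
  ⨆ i ∈ s, (Monoid.CoprodI.of (M := A) (i := i)).range

theorem of_mem_part {s : Finset ι} {i : ι} (hi : i ∈ s) (a : A i) :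
    Monoid.CoprodI.of (M := A) a ∈ part A s := by
  have h1 : (Monoid.CoprodI.of (M := A) (i := i)).range ≤ part A s :=
    le_iSup₂_of_le i hi le_rfl
  exact h1 ⟨a, rfl⟩

theorem part_mono : Monotone (part A) := by
  intro s t hst
  exact iSup₂_le fun i hi => le_iSup₂_of_le i (hst hi) le_rfl

theorem C_part (C : ∀ (G : Type) [Group G], Prop) (hC : Closed C) (hA : ∀ i, C (A i))
    (s : Finset ι) : C (part A s) := by
  classical
  induction s using Finset.induction_on with
  | empty =>
    have h1 : part A ∅ = ⊥ := by simp [part]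
    refine hC.of_injective _ (Multiplicative ℤ) 1 ?_ hC.int
    intro x y _
    have h2 : ∀ z : part A ∅, z = 1 := by
      intro z
      have h3 : (z : Monoid.CoprodI A) ∈ (⊥ : Subgroup (Monoid.CoprodI A)) := h1.le z.2
      exact Subtype.ext (Subgroup.mem_bot.1 h3)
    rw [h2 x, h2 y]
  | insert i s hi ih =>
    let D := Monoid.Coprod (part A s) (A i)
    have hD : C D := hC.coprod _ _ ih (hA i)
    let f : Monoid.CoprodI A →* D := Monoid.CoprodI.lift fun j =>
      if hj : j = i then Monoid.Coprod.inr.comp (MonoidHom.mk' (fun a : A j => hj ▸ a) (by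
        subst hj; intro a b; rfl))
      else if hs : j ∈ s then
        Monoid.Coprod.inl.comp ((Monoid.CoprodI.of (M := A) (i := j)).codRestrict (part A s)
          (fun a => of_mem_part hs a))
      else 1
    let g : D →* Monoid.CoprodI A :=
      Monoid.Coprod.lift (part A s).subtype (Monoid.CoprodI.of (M := A) (i := i))
    have hgf : ∀ y ∈ part A (insert i s), g (f y) = y := by
      have h1 : part A (insert i s) ≤ (g.comp f).eqLocus (MonoidHom.id _) := by
        refine iSup₂_le fun j hj => ?_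
        rintro _ ⟨a, rfl⟩
        show g (f (Monoid.CoprodI.of a)) = Monoid.CoprodI.of a
        simp only [f, Monoid.CoprodI.lift_of]
        by_cases hji : j = i
        · subst hji
          rw [dif_pos rfl]
          exact Monoid.Coprod.lift_apply_inr _ _ _
        · rw [dif_neg hji]
          have hs : j ∈ s := by
            rcases Finset.mem_insert.1 hj with h2 | h2
            · exact absurd h2 hji
            · exact h2
          rw [dif_pos hs]
          exact Monoid.Coprod.lift_apply_inl _ _ _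
      exact fun y hy => h1 hy
    refine hC.of_injective _ D (f.comp (part A (insert i s)).subtype) ?_ hD
    intro x y hxy
    have h1 : g (f x.1) = g (f y.1) := congrArg g hxy
    rw [hgf _ x.2, hgf _ y.2] at h1
    exact Subtype.ext h1

/-- free products of arbitrary families -/
theorem C_coprodI (C : ∀ (G : Type) [Group G], Prop) (hC : Closed C) (hA : ∀ i, C (A i)) :
    C (Monoid.CoprodI A) := by
  classical
  refine Pool.Agent.Y430.SS.of_directed hC (Monoid.CoprodI A) (Finset ι)
    (fun i j => ⟨i ∪ j, Finset.subset_union_left, Finset.subset_union_right⟩) (part A) part_mono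
    ?_ (fun s => C_part C hC hA s)
  intro g
  induction g using Monoid.CoprodI.induction_on with
  | one => exact ⟨∅, one_mem _⟩
  | of i a => exact ⟨{i}, of_mem_part (Finset.mem_singleton_self i) a⟩
  | mul a b ha hb =>
    obtain ⟨s, hs⟩ := ha
    obtain ⟨t, ht⟩ := hb
    exact ⟨s ∪ t, mul_mem (part_mono Finset.subset_union_left hs)
      (part_mono Finset.subset_union_right ht)⟩

end fam

/-- the cover of a groupoid-like set is in the class if the vertex groups are -/
theorem C_cover {G : Type} [Group G] {N : Set G} (h : CliqueSet N)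
    (C : ∀ (G : Type) [Group G], Prop) (hC : Closed C) (hv : ∀ p, C (vert h p)) :
    C (Cover N) := by
  refine hC.of_injective _ (Tgt h) (Th h) (Th_injective h) ?_
  exact hC.coprod _ _ (C_coprodI C hC hv) (Pool.Agent.Y179.SS.t_free C hC _)

end Pool.Agent.U863.CT
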