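import Pool.Agent.Y462.SS.Main
import Pool.Agent.Y812.SS.Wr
import Pool.Agent.Y331.SS.Lim
import Pool.Agent.Y179.SS.Free
import Pool.Agent.Y430.SS.Lf

/-!
# Contracting sequences of wreath recursions

Owner helper863.
-/

set_option autoImplicit false

namespace Pool.Agent.U863.CT

open Pool.Agent.Y462.SS
open Pool.Agent.Y331.SS (wmap wmap_s wmap_p)

section seq

variable {X Γ : ℕ → Type} [∀ n, Group (Γ n)] (ψ : ∀ n, Γ n →* Wr (X n) (Γ (n + 1)))

/-- the sections of level `m` of a family `t` of elements of `Γ n` all have the property `P` -/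
def AllS {ι : Type} (P : ∀ n, (ι → Γ n) → Prop) : ℕ → ∀ n, (ι → Γ n) → Prop
  | 0, n, t => P n t
  | m + 1, n, t => ∀ x : X n, AllS P m (n + 1) (fun i => (ψ n (t i)).s x)

/-- `γ` acts trivially on the words of length `m` -/
def Fixes : ℕ → ∀ n, Γ n → Prop
  | 0, _, _ => True
  | m + 1, n, γ => (ψ n γ).p = 1 ∧ ∀ x, Fixes m (n + 1) ((ψ n γ).s x)

/-- `γ` acts trivially on the tree -/
def ActsTriv (n : ℕ) (γ : Γ n) : Prop := ∀ m, Fixes ψ m n γ

variable {ψ}

section allS

variable {ι : Type}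

theorem AllS.mono {P Q : ∀ n, (ι → Γ n) → Prop} (h : ∀ n t, P n t → Q n t) {m n : ℕ}
    {t : ι → Γ n} (h1 : AllS ψ P m n t) : AllS ψ Q m n t := by
  induction m generalizing n with
  | zero => exact h n t h1
  | succ m ih => exact fun x => ih (h1 x)

theorem AllS.and {P Q : ∀ n, (ι → Γ n) → Prop} {m n : ℕ} {t : ι → Γ n} (h1 : AllS ψ P m n t)
    (h2 : AllS ψ Q m n t) : AllS ψ (fun n t => P n t ∧ Q n t) m n t := by
  induction m generalizing n with
  | zero => exact ⟨h1, h2⟩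
  | succ m ih => exact fun x => ih (h1 x) (h2 x)

theorem AllS.forall {A : Type} {P : A → ∀ n, (ι → Γ n) → Prop} {m n : ℕ} {t : ι → Γ n}
    (h1 : ∀ a, AllS ψ (P a) m n t) : AllS ψ (fun n t => ∀ a, P a n t) m n t := by
  induction m generalizing n with
  | zero => exact fun a => h1 a
  | succ m ih => exact fun x => ih (fun a => h1 a x)

theorem allS_comp {κ : Type} (e : κ → ι) {P : ∀ n, (κ → Γ n) → Prop} {m n : ℕ} {t : ι → Γ n} :
    AllS ψ P m n (fun k => t (e k)) ↔ AllS ψ (fun n s => P n (fun k => s (e k))) m n t := by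
  induction m generalizing n with
  | zero => exact Iff.rfl
  | succ m ih => exact forall_congr' fun x => ih (t := fun i => (ψ n (t i)).s x)

theorem allS_level (m n : ℕ) (t : ι → Γ n) : AllS ψ (fun j _ => j = n + m) m n t := by
  induction m generalizing n with
  | zero => exact rfl
  | succ m ih =>
    intro x
    refine AllS.mono ?_ (ih (n + 1) _)
    intro j _ h
    omega

/-- a property which is inherited by sections holds for all sections -/
theorem allS_of_step {P : ∀ n, (ι → Γ n) → Prop}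
    (hP : ∀ n t, P n t → ∀ x : X n, P (n + 1) (fun i => (ψ n (t i)).s x)) (m : ℕ) {n : ℕ}
    {t : ι → Γ n} (h : P n t) : AllS ψ P m n t := by
  induction m generalizing n with
  | zero => exact h
  | succ m ih => exact fun x => ih (hP n t h x)

/-- if the sections take finitely many values then there are finitely many classes -/
theorem allS_classes [∀ n, Finite (X n)] {m n : ℕ} {t : ι → Γ n}
    (h : AllS ψ (fun _ s => (Set.range s).Finite) m n t) :
    ∃ (A : Type) (_ : Finite A) (q : ι → A),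
      ∀ i j, q i = q j → AllS ψ (fun _ s => s i = s j) m n t := by
  induction m generalizing n with
  | zero =>
    refine ⟨Set.range t, h, fun i => ⟨t i, i, rfl⟩, fun i j hij => ?_⟩
    exact congrArg Subtype.val hij
  | succ m ih =>
    choose A hA q hq using fun x => ih (h x)
    refine ⟨∀ x, A x, inferInstance, fun i x => q x i, fun i j hij x => ?_⟩
    exact hq x i j (congrFun hij x)

end allS

theorem Fixes.le {m m' n : ℕ} (h : m ≤ m') {γ : Γ n} (h1 : Fixes ψ m' n γ) : Fixes ψ m n γ := by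
  induction m generalizing n m' with
  | zero => trivial
  | succ m ih =>
    obtain ⟨m'', rfl⟩ : ∃ m'', m' = m'' + 1 := ⟨m' - 1, by omega⟩
    exact ⟨h1.1, fun x => ih (by omega) (h1.2 x)⟩

theorem ActsTriv.p {n : ℕ} {γ : Γ n} (h : ActsTriv ψ n γ) : (ψ n γ).p = 1 := (h 1).1

theorem ActsTriv.s {n : ℕ} {γ : Γ n} (h : ActsTriv ψ n γ) (x : X n) :
    ActsTriv ψ (n + 1) ((ψ n γ).s x) := fun m => (h (m + 1)).2 x

variable (ψ) in
/-- the elements which act trivially -/
def ker0 (n : ℕ) : Subgroup (Γ n) where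
  carrier := {γ | ActsTriv ψ n γ}
  one_mem' := by
    intro m
    induction m generalizing n with
    | zero => trivial
    | succ m ih =>
      refine ⟨by rw [map_one]; rfl, fun x => ?_⟩
      have h1 : (ψ n 1).s x = 1 := by rw [map_one]; rfl
      rw [h1]
      exact ih (n + 1)
  mul_mem' := by
    intro a b ha hb m
    induction m generalizing n with
    | zero => trivial
    | succ m ih =>
      refine ⟨?_, fun x => ?_⟩
      · rw [map_mul, Wr.mul_p, ActsTriv.p ha, ActsTriv.p hb, one_mul]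
      · rw [map_mul, Wr.mul_s, ActsTriv.p hb]
        exact ih (n + 1) (ActsTriv.s ha x) (ActsTriv.s hb x)
  inv_mem' := by
    intro a ha m
    induction m generalizing n with
    | zero => trivial
    | succ m ih =>
      refine ⟨?_, fun x => ?_⟩
      · rw [map_inv, Wr.inv_p, ActsTriv.p ha, inv_one]
      · rw [map_inv, Wr.inv_s, ActsTriv.p ha, inv_one]
        exact ih (n + 1) (ActsTriv.s ha x)

theorem mem_ker0 {n : ℕ} {γ : Γ n} : γ ∈ ker0 ψ n ↔ ActsTriv ψ n γ := Iff.rfl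

/-- `t` is a homomorphism from `H` to the elements which act trivially -/
def HomTriv {H : Type} [Group H] (n : ℕ) (t : H → Γ n) : Prop :=
  (∀ a b, t (a * b) = t a * t b) ∧ ∀ a, ActsTriv ψ n (t a)

theorem HomTriv.step {H : Type} [Group H] (n : ℕ) (t : H → Γ n) (h : HomTriv (ψ := ψ) n t)
    (x : X n) : HomTriv (ψ := ψ) (n + 1) (fun a => (ψ n (t a)).s x) := by
  refine ⟨fun a b => ?_, fun a => ActsTriv.s (h.2 a) x⟩
  show (ψ n (t (a * b))).s x = _
  rw [h.1, map_mul, Wr.mul_s, ActsTriv.p (h.2 b)]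
  rfl

theorem allS_homTriv {H : Type} [Group H] (m : ℕ) {n : ℕ} {t : H → Γ n}
    (h : HomTriv (ψ := ψ) n t) : AllS ψ (fun n t => HomTriv (ψ := ψ) n t) m n t :=
  allS_of_step (HomTriv.step) m h

/-! ## the colimit -/

/-- the homomorphism to the wreath product of the quotient -/
def phi {X Γ Δ : Type} [Group Γ] [Group Δ] (ψ : Γ →* Wr X Δ) (K : Subgroup Δ) [K.Normal] :
    Γ →* Wr X (Δ ⧸ K) :=
  (wmap (QuotientGroup.mk' K)).comp ψ

theorem mem_ker_phi {X Γ Δ : Type} [Group Γ] [Group Δ] (ψ : Γ →* Wr X Δ) (K : Subgroup Δ)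
    [K.Normal] (γ : Γ) : γ ∈ (phi ψ K).ker ↔ (ψ γ).p = 1 ∧ ∀ x, (ψ γ).s x ∈ K := by
  rw [MonoidHom.mem_ker]
  constructor
  · intro h
    refine ⟨congrArg Wr.p h, fun x => ?_⟩
    exact (QuotientGroup.eq_one_iff _).1 (congrFun (congrArg Wr.s h) x)
  · rintro ⟨h1, h2⟩
    apply Wr.ext
    · funext x
      exact (QuotientGroup.eq_one_iff _).2 (h2 x)
    · exact h1

variable (ψ)

/-- the sequence of kernels -/
def kk : ℕ → ∀ n, {K : Subgroup (Γ n) // K.Normal}
  | 0, _ => ⟨⊥, inferInstance⟩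
  | m + 1, n =>
    letI : (kk m (n + 1)).1.Normal := (kk m (n + 1)).2
    ⟨(phi (ψ n) (kk m (n + 1)).1).ker, inferInstance⟩

/-- the kernel of the recursion iterated `m` times -/
def Km (m n : ℕ) : Subgroup (Γ n) := (kk ψ m n).1

instance Km_normal (m n : ℕ) : (Km ψ m n).Normal := (kk ψ m n).2

theorem Km_zero (n : ℕ) : Km ψ 0 n = ⊥ := rfl

theorem mem_Km_succ (m n : ℕ) (γ : Γ n) :
    γ ∈ Km ψ (m + 1) n ↔ (ψ n γ).p = 1 ∧ ∀ x, (ψ n γ).s x ∈ Km ψ m (n + 1) := by
  have h1 : Km ψ (m + 1) n = (phi (ψ n) (Km ψ m (n + 1))).ker := rfl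
  rw [h1, mem_ker_phi]

theorem Km_le_succ (m n : ℕ) : Km ψ m n ≤ Km ψ (m + 1) n := by
  induction m generalizing n with
  | zero =>
    rw [Km_zero]
    exact bot_le
  | succ m ih =>
    intro γ h
    rw [mem_Km_succ] at h ⊢
    exact ⟨h.1, fun x => ih _ (h.2 x)⟩

theorem Km_mono (n : ℕ) : Monotone (fun m => Km ψ m n) :=
  monotone_nat_of_le_succ (fun m => Km_le_succ ψ m n)

/-- an element which acts trivially and whose sections of level `m` are trivial -/
theorem mem_Km_of {ι : Type} (i : ι) (m n : ℕ) (t : ι → Γ n) (h : ActsTriv ψ n (t i))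
    (h1 : AllS ψ (fun _ s => s i = 1) m n t) : t i ∈ Km ψ m n := by
  induction m generalizing n with
  | zero =>
    rw [Km_zero, Subgroup.mem_bot]
    exact h1
  | succ m ih =>
    rw [mem_Km_succ]
    exact ⟨ActsTriv.p h, fun x => ih (n + 1) _ (ActsTriv.s h x) (h1 x)⟩

theorem actsTriv_of_mem_Km (m n : ℕ) (γ : Γ n) (h : γ ∈ Km ψ m n) : ActsTriv ψ n γ := by
  induction m generalizing n with
  | zero =>
    rw [Km_zero, Subgroup.mem_bot] at h
    rw [h]
    exact one_mem (ker0 ψ n)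
  | succ m ih =>
    rw [mem_Km_succ] at h
    intro k
    cases k with
    | zero => trivial
    | succ k => exact ⟨h.1, fun x => ih _ _ (h.2 x) k⟩

/-- the elements which die -/
def dying (n : ℕ) : Subgroup (Γ n) := ⨆ m, Km ψ m n

theorem mem_dying {n : ℕ} {γ : Γ n} : γ ∈ dying ψ n ↔ ∃ m, γ ∈ Km ψ m n := by
  rw [dying, Subgroup.mem_iSup_of_directed]
  exact (Km_mono ψ n).directed_le

instance dying_normal (n : ℕ) : (dying ψ n).Normal := by
  constructor
  intro a ha g
  obtain ⟨m, hm⟩ := (mem_dying ψ).1 ha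
  exact (mem_dying ψ).2 ⟨m, (Km_normal ψ m n).conj_mem a hm g⟩

theorem dying_le (n : ℕ) : dying ψ n ≤ ker0 ψ n := by
  intro γ h
  obtain ⟨m, hm⟩ := (mem_dying ψ).1 h
  exact actsTriv_of_mem_Km ψ m n γ hm

theorem C_Km (C : ∀ (G : Type) [Group G], Prop) (hC : Closed C) [∀ n, Finite (X n)]
    (hΓ : ∀ n, C (Γ n)) (m n : ℕ) : C (Γ n ⧸ Km ψ m n) := by
  induction m generalizing n with
  | zero =>
    refine hC.of_injective (Γ n ⧸ Km ψ 0 n) (Γ n)
      (QuotientGroup.lift (Km ψ 0 n) (MonoidHom.id (Γ n)) ?_) ?_ (hΓ n)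
    · intro x hx
      rw [Km_zero, Subgroup.mem_bot] at hx
      exact hx
    · rw [injective_iff_map_eq_one]
      intro a ha
      obtain ⟨y, rfl⟩ := QuotientGroup.mk_surjective a
      have h1 : y = 1 := ha
      rw [h1]
      rfl
  | succ m ih =>
    have h1 : C (Wr (X n) (Γ (n + 1) ⧸ Km ψ m (n + 1))) :=
      Pool.Agent.Y812.SS.t_wr C hC (X n) _ inferInstance (ih (n + 1))
    exact hC.of_injective (Γ n ⧸ (phi (ψ n) (Km ψ m (n + 1))).ker) _
      (QuotientGroup.kerLift (phi (ψ n) (Km ψ m (n + 1)))) (QuotientGroup.kerLift_injective _) h1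

/-- the quotient by the dying elements -/
theorem C_dying (C : ∀ (G : Type) [Group G], Prop) (hC : Closed C) [∀ n, Finite (X n)]
    (hΓ : ∀ n, C (Γ n)) (n : ℕ) (K : Subgroup (Γ n)) [K.Normal]
    (hK : ∀ γ, γ ∈ K ↔ ∃ m, γ ∈ Km ψ m n) : C (Γ n ⧸ K) := by
  have hle : ∀ m, Km ψ m n ≤ K := fun m γ h => (hK γ).2 ⟨m, h⟩
  refine hC.colim ℕ (fun i j => ⟨max i j, le_max_left i j, le_max_right i j⟩)
    (fun m => Γ n ⧸ Km ψ m n)
    (fun i j h => QuotientGroup.map (Km ψ i n) (Km ψ j n) (MonoidHom.id (Γ n)) (Km_mono ψ n h))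
    (Γ n ⧸ K) (fun i => QuotientGroup.map (Km ψ i n) K (MonoidHom.id (Γ n)) (hle i)) ?_ ?_ ?_ ?_ ?_ ?_
  · intro i h x
    obtain ⟨y, rfl⟩ := QuotientGroup.mk_surjective x
    rfl
  · intro i j k h h' x
    obtain ⟨y, rfl⟩ := QuotientGroup.mk_surjective x
    rfl
  · intro i j h x
    obtain ⟨y, rfl⟩ := QuotientGroup.mk_surjective x
    rfl
  · intro y
    obtain ⟨z, rfl⟩ := QuotientGroup.mk_surjective y
    exact ⟨0, QuotientGroup.mk z, rfl⟩
  · intro i x hx
    obtain ⟨y, rfl⟩ := QuotientGroup.mk_surjective x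
    have h1 : ((y : Γ n) : Γ n ⧸ K) = 1 := hx
    have h2 : y ∈ K := (QuotientGroup.eq_one_iff _).1 h1
    obtain ⟨m, hm⟩ := (hK y).1 h2
    refine ⟨max i m, le_max_left i m, ?_⟩
    have h3 : y ∈ Km ψ (max i m) n := Km_mono ψ n (le_max_right i m) hm
    exact (QuotientGroup.eq_one_iff _).2 h3
  · intro m
    exact C_Km ψ C hC hΓ m n

end seq

end Pool.Agent.U863.CT
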