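import Pool.Agent.U863.CT.Stat

/-!
# Contracting wreath recursions: the theorems

Owner helper863.
-/

set_option autoImplicit false

namespace Pool.Agent.U863.CT

open Pool.Agent.Y462.SS

instance ker0_normal {X Γ : ℕ → Type} [∀ n, Group (Γ n)] (ψ : ∀ n, Γ n →* Wr (X n) (Γ (n + 1)))
    (n : ℕ) : (ker0 ψ n).Normal := by
  constructor
  intro a ha g m
  induction m generalizing n with
  | zero => trivial
  | succ m ih =>
    have hp : (ψ n (g * a * g⁻¹)).p = 1 := by
      rw [map_mul, map_mul, map_inv, Wr.mul_p, Wr.mul_p, Wr.inv_p, ActsTriv.p ha, mul_one,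
        mul_inv_cancel]
    refine ⟨hp, fun x => ?_⟩
    have h1 : (ψ n (g * a * g⁻¹)).s x =
        (ψ n g).s ((ψ n g).p⁻¹ x) * (ψ n a).s ((ψ n g).p⁻¹ x) *
          ((ψ n g).s ((ψ n g).p⁻¹ x))⁻¹ := by
      rw [map_mul, map_mul, map_inv, Wr.mul_s, Wr.mul_s, Wr.inv_s, Wr.inv_p, ActsTriv.p ha]
      rfl
    rw [h1]
    exact ih (n + 1) _ (ActsTriv.s ha _) _

/-- the quotient by all elements which act trivially -/
theorem C_ker0 {X Γ : ℕ → Type} [∀ n, Group (Γ n)] (ψ : ∀ n, Γ n →* Wr (X n) (Γ (n + 1)))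
    (C : ∀ (G : Type) [Group G], Prop) (hC : Closed C) [∀ n, Finite (X n)]
    (hΓ : ∀ n, C (Γ n)) (h : ∀ γ, ActsTriv ψ 0 γ → γ ∈ dying ψ 0) : C (Γ 0 ⧸ ker0 ψ 0) := by
  refine C_dying ψ C hC hΓ 0 (ker0 ψ 0) fun γ => ?_
  constructor
  · intro h1
    exact (mem_dying ψ).1 (h γ h1)
  · rintro ⟨m, hm⟩
    exact actsTriv_of_mem_Km ψ m 0 γ hm

section seqdefs

variable {X Γ : ℕ → Type} [∀ n, Group (Γ n)] (ψ : ∀ n, Γ n →* Wr (X n) (Γ (n + 1)))

/-- the sequence of recursions is contracting with bound `B`: there are sets `N n` with at most `B`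
elements such that the sections of level `m` of every element of `Γ 0` are in `N m` for large `m` -/
def BoundedContraction (B : ℕ) : Prop :=
  ∃ N : ∀ n, Set (Γ n), (∀ n, (N n).Finite ∧ (N n).ncard ≤ B) ∧ ∀ γ, Eventually ψ N γ

/-- finitely many elements of `Γ 0` which act trivially generate a finite group modulo the dying
elements, and all elements which act trivially have exponent `e` modulo the dying elements -/
def LocallyFiniteKernel (e : ℕ) : Prop :=
  (∀ S : Set (Γ 0), S.Finite → (∀ γ ∈ S, ActsTriv ψ 0 γ) →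
    Finite ((Subgroup.closure S).map (QuotientGroup.mk' (dying ψ 0)))) ∧
  ∀ γ, ActsTriv ψ 0 γ → γ ^ e ∈ dying ψ 0

/-- for infinitely many `n` no nontrivial element of finite order of `Γ n` acts trivially -/
def NoTorsion : Prop :=
  ∀ m, ∃ n ≥ m, ∀ γ : Γ n, IsOfFinOrder γ → ActsTriv ψ n γ → γ = 1

end seqdefs

section fg

variable {X : Type}

/-- the group `G` of tree automorphisms is self-similar and contracting -/
def ContractingGroup (G : Subgroup (T X)) : Prop :=
  (∀ g ∈ G, ∀ x, sec g x ∈ G) ∧ ∃ M : Set (T X), M.Finite ∧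
    ∀ g ∈ G, ∃ n : ℕ, ∀ v : List X, n ≤ v.length → secw (toWr X) g v ∈ M

theorem secw_mem {G : Subgroup (T X)} (h : ∀ g ∈ G, ∀ x, sec g x ∈ G) {g : T X} (hg : g ∈ G)
    (v : List X) : secw (toWr X) g v ∈ G := by
  induction v generalizing g with
  | nil => exact hg
  | cons x v ih => exact ih (h g hg x)

theorem secw_inv (g : T X) (v : List X) :
    (secw (toWr X) g v)⁻¹ = secw (toWr X) g⁻¹ (act (toWr X) g v) := by
  have h1 := secw_mul (toWr X) g⁻¹ g v
  rw [inv_mul_cancel, secw_one] at h1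
  exact (eq_inv_of_mul_eq_one_left h1.symm).symm

/-- a finitely generated contracting group has a finite generating set which is closed under inverses
and sections and contains the sections of its products at the words of some length -/
theorem exists_auto [Finite X] (G : Subgroup (T X)) (hfg : G.FG) (hG : ContractingGroup G) :
    ∃ N : Set (T X), N.Finite ∧ Auto N ∧ Subgroup.closure N = G := by
  classical
  obtain ⟨hss, M, hMf, hM⟩ := hG
  obtain ⟨S, hS⟩ := hfg
  have hSG : ∀ s ∈ S, s ∈ G := fun s hs => hS ▸ Subgroup.subset_closure hs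
  have hsec : ∀ g ∈ G, (Set.range (secw (toWr X) g)).Finite := by
    intro g hg
    obtain ⟨n, hn⟩ := hM g hg
    refine (((List.finite_length_lt X n).image (secw (toWr X) g)).union hMf).subset ?_
    rintro _ ⟨v, rfl⟩
    rcases lt_or_ge v.length n with h | h
    · exact Or.inl ⟨v, h, rfl⟩
    · exact Or.inr (hn v h)
  set M' : Set (T X) := M ∩ G with hM'
  set S' : Set (T X) := (({1} : Set (T X)) ∪ ((S : Set (T X)) ∪ M')) ∪
    (fun a : T X => a⁻¹) '' (({1} : Set (T X)) ∪ ((S : Set (T X)) ∪ M')) with hS'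
  have hS'f : S'.Finite := by
    have h1 : (({1} : Set (T X)) ∪ ((S : Set (T X)) ∪ M')).Finite :=
      (Set.finite_singleton _).union (S.finite_toSet.union (hMf.subset Set.inter_subset_left))
    exact h1.union (h1.image _)
  have hS'G : ∀ s ∈ S', s ∈ G := by
    have h1 : ∀ s ∈ ({1} : Set (T X)) ∪ ((S : Set (T X)) ∪ M'), s ∈ G := by
      rintro s (rfl | hs | hs)
      · exact one_mem G
      · exact hSG s hs
      · exact hs.2
    rintro s (hs | ⟨s', hs, rfl⟩)
    · exact h1 s hs
    · exact inv_mem (h1 s' hs)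
  have hS'i : ∀ s ∈ S', s⁻¹ ∈ S' := by
    rintro s (hs | ⟨s', hs, rfl⟩)
    · exact Or.inr ⟨s, hs, rfl⟩
    · left
      simpa using hs
  set N : Set (T X) := ⋃ g ∈ S', Set.range (secw (toWr X) g) with hN
  have hmem : ∀ {a}, a ∈ N ↔ ∃ g ∈ S', ∃ v, secw (toWr X) g v = a := by
    intro a
    simp [hN]
  have hNf : N.Finite := hS'f.biUnion fun g hg => hsec g (hS'G g hg)
  have hNG : ∀ a ∈ N, a ∈ G := by
    intro a ha
    obtain ⟨g, hg, v, rfl⟩ := hmem.1 ha
    exact secw_mem hss (hS'G g hg) v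
  have hsub : S' ⊆ N := fun s hs => hmem.2 ⟨s, hs, [], rfl⟩
  refine ⟨N, hNf, ⟨?_, ?_, ?_, ?_⟩, ?_⟩
  · exact hsub (Or.inl (Or.inl rfl))
  · intro a ha
    obtain ⟨g, hg, v, rfl⟩ := hmem.1 ha
    rw [secw_inv]
    exact hmem.2 ⟨g⁻¹, hS'i g hg, _, rfl⟩
  · intro a ha x
    obtain ⟨g, hg, v, rfl⟩ := hmem.1 ha
    exact hmem.2 ⟨g, hg, v ++ [x], by rw [secw_append]; rfl⟩
  · intro a ha b hb
    obtain ⟨k, hk⟩ := hM _ (mul_mem (hNG a ha) (hNG b hb))
    refine ⟨k, fun v hv => hsub (Or.inl (Or.inr (Or.inr ⟨hk v hv.ge, ?_⟩)))⟩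
    exact secw_mem hss (mul_mem (hNG a ha) (hNG b hb)) v
  · apply le_antisymm
    · rw [Subgroup.closure_le]
      exact hNG
    · rw [← hS]
      apply Subgroup.closure_mono
      intro s hs
      exact hsub (Or.inl (Or.inr (Or.inl hs)))

/-- `G` has a finite generating set `N` such that the finitely presented group with the generators
`N` and the relations of length at most three that hold in `G` has a contracting recursion with
faithful quotient `G`, and `G` is in `C` if this finitely presented group is -/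
def CoverProperty (C : ∀ (G : Type) [Group G], Prop) (G : Subgroup (T X)) : Prop :=
  ∃ N : Set (T X), N.Finite ∧ Subgroup.closure N = G ∧ (rels N).Finite ∧
    (∃ ψ : PresentedGroup (rels N) →* Wr X (PresentedGroup (rels N)),
      Contracting ψ ∧ (tau ψ).range = G ∧
      ∀ a : N, tau ψ (PresentedGroup.of a) = (a : T X)) ∧
    (C (PresentedGroup (rels N)) → C G)

theorem rels_finite {G : Type} [Group G] {N : Set G} (hN : N.Finite) : (rels N).Finite := by
  have : Finite N := hN
  refine ((List.finite_length_le N 3).image (fun l => (l.map FreeGroup.of).prod)).subset ?_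
  rintro r ⟨l, hl, -, rfl⟩
  exact ⟨l, hl, rfl⟩

end fg

end Pool.Agent.U863.CT
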