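import Pool.Agent.U863.CT.Gpd

/-!
# Groups of tree automorphisms with a groupoid-like nucleus

Owner helper863.
-/

set_option autoImplicit false

namespace Pool.Agent.U863.CT

open Pool.Agent.Y462.SS

variable {X : Type}

theorem Lv_le_succ {H : Subgroup (T X)} (h : ∀ g ∈ H, ∀ x, sec g x ∈ H) (n : ℕ) :
    Lv H n ≤ Lv H (n + 1) := by
  induction n with
  | zero => exact fun g hg x => h g hg x
  | succ n ih => exact fun g hg x => ih (hg x)

theorem sec_mem_closure {N : Set (T X)} (hN : Auto N) {g : T X} (hg : g ∈ Subgroup.closure N)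
    (x : X) : sec g x ∈ Subgroup.closure N := by
  induction hg using Subgroup.closure_induction generalizing x with
  | mem a ha => exact Subgroup.subset_closure (hN.sec a ha x)
  | one => rw [sec_one]; exact one_mem _
  | mul a b _ _ iha ihb => rw [sec_mul]; exact mul_mem (iha _) (ihb _)
  | inv a _ iha => rw [sec_inv]; exact inv_mem (iha _)

/-- groups of automorphisms whose sections at some level are in the group `⟨N⟩` -/
theorem levels_closed [Finite X] (C : ∀ (G : Type) [Group G], Prop) (hC : Closed C)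
    {N : Set (T X)} (hN : Auto N) (h : C (Subgroup.closure N)) (K : Subgroup (T X))
    (hK : ∀ g ∈ K, ∃ n, g ∈ Lv (Subgroup.closure N) n) : C K := by
  have h1 : ∀ n, Lv (Subgroup.closure N) n ≤ Lv (Subgroup.closure N) (n + 1) :=
    fun n => Lv_le_succ (fun g hg x => sec_mem_closure hN hg x) n
  refine Pool.Agent.Y430.SS.t_union C hC K
    (fun n => (Lv (Subgroup.closure N) n).comap K.subtype)
    (monotone_nat_of_le_succ fun n g hg => h1 n hg) (fun g => hK g.1 g.2) ?_
  intro n
  refine hC.of_injective _ (Lv (Subgroup.closure N) n)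
    { toFun := fun g => ⟨g.1.1, g.2⟩
      map_one' := rfl
      map_mul' := fun _ _ => rfl } ?_
    (Lv_closed C hC Pool.Agent.Y812.SS.t_wr (Subgroup.closure N) h n)
  intro a b hab
  have h2 : (a.1.1 : T X) = b.1.1 :=
    congrArg (fun z : Lv (Subgroup.closure N) n => (z : T X)) hab
  exact Subtype.ext (Subtype.ext h2)

/-- **groupoid-like nuclei** -/
theorem gpd_main [Finite X] (C : ∀ (G : Type) [Group G], Prop) (hC : Closed C)
    (N : Set (T X)) (hN : Auto N) (hT : CliqueSet N) (hv : N.Finite ∨ ∀ p, C (vert hT p))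
    (K : Subgroup (T X)) (hK : ∀ g ∈ K, ∃ n, g ∈ Lv (Subgroup.closure N) n) : C K := by
  refine levels_closed C hC hN (cover_main C hC hN (C_cover hT C hC ?_)) K hK
  intro p
  rcases hv with hf | hv
  · refine Pool.Agent.Y430.SS.of_finite hC _ ?_
    exact (hf.subset (fun g (hg : Arrow N p p g) => hg.1) : {g | Arrow N p p g}.Finite)
  · exact hv p

end Pool.Agent.U863.CT

namespace Pool.Agent.U863.CT

open Pool.Agent.Y462.SS

variable {X : Type}

theorem mem_Lv_of_secw {H : Subgroup (T X)} {n : ℕ} {g : T X}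
    (h : ∀ v : List X, v.length = n → secw (toWr X) g v ∈ H) : g ∈ Lv H n := by
  induction n generalizing g with
  | zero => exact h [] rfl
  | succ n ih => exact fun x => ih fun v hv => h (x :: v) (by simp [hv])

/-- **groupoid-like nuclei**, the vertex groups given by their elements -/
theorem gpd_main' [Finite X] (C : ∀ (G : Type) [Group G], Prop) (hC : Closed C)
    (N : Set (T X)) (hN : Auto N) (hT : CliqueSet N)
    (hv : N.Finite ∨ ∀ (p : Set (T X)) (V : Subgroup (T X)), (∀ g, g ∈ V ↔ Arrow N p p g) → C V)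
    (K : Subgroup (T X)) (hK : ∀ g ∈ K, ∃ n : ℕ, ∀ v : List X, v.length = n →
      secw (toWr X) g v ∈ Subgroup.closure N) : C K := by
  refine gpd_main C hC N hN hT ?_ K fun g hg => ?_
  · rcases hv with hv | hv
    · exact Or.inl hv
    · exact Or.inr fun p => hv p (vert hT p) fun g => Iff.rfl
  · obtain ⟨n, hn⟩ := hK g hg
    exact ⟨n, mem_Lv_of_secw hn⟩

end Pool.Agent.U863.CT
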