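import Pool.Agent.U863.CT.Tors

/-!
# Contracting wreath recursions

Owner helper863.
-/

set_option autoImplicit false

namespace Pool.Agent.U863.CT

open Pool.Agent.Y462.SS

section stat

variable {X Γ : Type} [Group Γ] (ψ : Γ →* Wr X Γ)

/-- the section of `γ` at the word `v` -/
def secw : Γ → List X → Γ
  | γ, [] => γ
  | γ, x :: v => secw ((ψ γ).s x) v

/-- the recursion `ψ` is contracting: there is a finite set which contains all sections of `γ` at
all sufficiently long words, for every `γ` -/
def Contracting : Prop :=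
  ∃ N : Set Γ, N.Finite ∧ ∀ γ, ∃ n : ℕ, ∀ v : List X, n ≤ v.length → secw ψ γ v ∈ N

theorem secw_nil (γ : Γ) : secw ψ γ [] = γ := rfl

theorem secw_cons (γ : Γ) (x : X) (v : List X) :
    secw ψ γ (x :: v) = secw ψ ((ψ γ).s x) v := rfl

theorem secw_append (γ : Γ) (u v : List X) : secw ψ γ (u ++ v) = secw ψ (secw ψ γ u) v := by
  induction u generalizing γ with
  | nil => rfl
  | cons x u ih => exact ih _

theorem secw_one (v : List X) : secw ψ 1 v = 1 := by
  induction v with
  | nil => rfl
  | cons x v ih => rw [secw_cons, map_one]; exact ih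

theorem secw_mul (γ δ : Γ) (v : List X) :
    secw ψ (γ * δ) v = secw ψ γ (act ψ δ v) * secw ψ δ v := by
  induction v generalizing γ δ with
  | nil => rw [act_nil]; rfl
  | cons x v ih => rw [act_cons, secw_cons, secw_cons, secw_cons, map_mul, Wr.mul_s, ih]

theorem tau_secw (γ : Γ) (v : List X) : tau ψ (secw ψ γ v) = secw (toWr X) (tau ψ γ) v := by
  induction v generalizing γ with
  | nil => rfl
  | cons x v ih =>
    rw [secw_cons, secw_cons, ih, toWr_s, sec_tau]

theorem tau_secw_eq_one {γ : Γ} (h : tau ψ γ = 1) (v : List X) : tau ψ (secw ψ γ v) = 1 := by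
  rw [tau_secw, h, secw_one]

theorem act_eq_of_tau {γ : Γ} (h : tau ψ γ = 1) (v : List X) : act ψ γ v = v := by
  have h1 := congrArg (fun g : T X => g.1 v) h
  exact h1

/-- the constant sequence -/
theorem allS_const {ι : Type} (Q : (ι → Γ) → Prop) (m n : ℕ) (t : ι → Γ) :
    AllS (X := fun _ => X) (Γ := fun _ => Γ) (fun _ => ψ) (fun _ s => Q s) m n t ↔
      ∀ v : List X, v.length = m → Q (fun i => secw ψ (t i) v) := by
  induction m generalizing n t with
  | zero =>
    constructor
    · intro h v hv
      rw [List.length_eq_zero_iff] at hv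
      subst hv
      exact h
    · intro h
      exact h [] rfl
  | succ m ih =>
    constructor
    · intro h v hv
      cases v with
      | nil => simp at hv
      | cons x v => exact (ih (n + 1) _).1 (h x) v (by simpa using hv)
    · intro h x
      refine (ih (n + 1) _).2 fun v hv => ?_
      exact h (x :: v) (by simpa using hv)

theorem actsTriv_const (n : ℕ) (γ : Γ) :
    ActsTriv (X := fun _ => X) (Γ := fun _ => Γ) (fun _ => ψ) n γ ↔ tau ψ γ = 1 := by
  constructor
  · intro h
    apply Subtype.ext
    apply Equiv.ext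
    intro w
    change act ψ γ w = w
    induction w generalizing n γ with
    | nil => exact act_nil ψ γ
    | cons x w ih =>
      have h1 : (ψ γ).p = 1 := h.p
      rw [act_cons, h1, ih (n + 1) ((ψ γ).s x) (h.s x)]
      rfl
  · intro h m
    induction m generalizing n γ with
    | zero => trivial
    | succ m ih =>
      refine ⟨?_, fun x => ih (n + 1) _ ?_⟩
      · rw [← root_tau, h, root_one]
      · rw [← sec_tau, h, sec_one]

theorem eventually_of {N : Set Γ} (hN : ∀ γ, ∃ n : ℕ, ∀ v : List X, n ≤ v.length → secw ψ γ v ∈ N)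
    (γ : Γ) : Eventually (X := fun _ => X) (Γ := fun _ => Γ) (fun _ => ψ) (fun _ => N) γ := by
  obtain ⟨n, hn⟩ := hN γ
  refine ⟨n, fun m hm => (allS_const ψ (fun s => s () ∈ N) m 0 _).2 ?_⟩
  intro v hv
  exact hn v (by omega)

/-- the kernel of the recursion iterated `m` times -/
theorem mem_Km_const (m n : ℕ) (γ : Γ) (h : tau ψ γ = 1)
    (h1 : ∀ v : List X, v.length = m → secw ψ γ v = 1) :
    γ ∈ Km (X := fun _ => X) (Γ := fun _ => Γ) (fun _ => ψ) m n := by
  refine mem_Km_of (X := fun _ => X) (Γ := fun _ => Γ) (fun _ => ψ) () m n (fun _ => γ)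
    ((actsTriv_const ψ n γ).2 h) ?_
  exact (allS_const ψ (fun s => s () = 1) m n _).2 h1

/-- if all elements which act trivially die then the group of tree automorphisms is in the class -/
theorem C_range (C : ∀ (G : Type) [Group G], Prop) (hC : Closed C) [Finite X] (hΓ : C Γ)
    (h : ∀ γ, tau ψ γ = 1 →
      γ ∈ dying (X := fun _ => X) (Γ := fun _ => Γ) (fun _ => ψ) 0) : C (tau ψ).range := by
  have h1 : C (Γ ⧸ (tau ψ).ker) := by
    refine C_dying (X := fun _ => X) (Γ := fun _ => Γ) (fun _ => ψ) C hC (fun _ => hΓ) 0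
      (tau ψ).ker ?_
    intro γ
    rw [MonoidHom.mem_ker]
    constructor
    · intro h2
      exact (mem_dying (X := fun _ => X) (Γ := fun _ => Γ) (fun _ => ψ)).1 (h γ h2)
    · rintro ⟨m, hm⟩
      exact (actsTriv_const ψ 0 γ).1
        (actsTriv_of_mem_Km (X := fun _ => X) (Γ := fun _ => Γ) (fun _ => ψ) m 0 γ hm)
  exact hC.of_injective _ _ (QuotientGroup.quotientKerEquivRange (tau ψ)).symm.toMonoidHom
    (QuotientGroup.quotientKerEquivRange (tau ψ)).symm.injective h1

/-- contracting recursions without elements of finite order which act trivially -/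
theorem stat_torsion (C : ∀ (G : Type) [Group G], Prop) (hC : Closed C) [Finite X] (hΓ : C Γ)
    (hψ : Contracting ψ) (htor : ∀ γ, IsOfFinOrder γ → tau ψ γ = 1 → γ = 1) :
    C (tau ψ).range := by
  obtain ⟨N, hNf, hN⟩ := hψ
  refine C_range ψ C hC hΓ fun γ hγ => ?_
  refine mem_dying_of_torsion (X := fun _ => X) (Γ := fun _ => Γ) (ψ := fun _ => ψ)
    (N := fun _ => N) (eventually_of ψ hN) N.ncard (fun _ => ⟨hNf, le_rfl⟩) ?_ γ
    ((actsTriv_const ψ 0 γ).2 hγ)
  intro m
  exact ⟨m, le_rfl, fun γ h1 h2 => htor γ h1 ((actsTriv_const ψ m γ).1 h2)⟩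

/-- recursions whose sections are eventually in a set of elements which act nontrivially -/
theorem stat_nucleus (C : ∀ (G : Type) [Group G], Prop) (hC : Closed C) [Finite X] (hΓ : C Γ)
    (N : Set Γ) (hN : ∀ γ, ∃ n : ℕ, ∀ v : List X, n ≤ v.length → secw ψ γ v ∈ N)
    (h1 : ∀ γ ∈ N, tau ψ γ = 1 → γ = 1) : C (tau ψ).range := by
  refine C_range ψ C hC hΓ fun γ hγ => ?_
  obtain ⟨n, hn⟩ := hN γ
  rw [mem_dying]
  refine ⟨n, mem_Km_const ψ n 0 γ hγ fun v hv => ?_⟩
  exact h1 _ (hn v hv.ge) (tau_secw_eq_one ψ hγ v)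

end stat

/-! ## the finitely presented cover of a contracting group -/

section cover

variable {X : Type}

/-- the relations of length at most three between the elements of `N` -/
def rels {G : Type} [Group G] (N : Set G) : Set (FreeGroup N) :=
  {r | ∃ l : List N, l.length ≤ 3 ∧ (l.map Subtype.val).prod = 1 ∧ (l.map FreeGroup.of).prod = r}

/-- the group with the generators `N` and the relations of length at most three which hold
between them -/
abbrev Cover {G : Type} [Group G] (N : Set G) : Type := PresentedGroup (rels N)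

/-- `N` contains `1`, is closed under inverses and sections and contains the sections of the product
of any two of its elements at the words of some length -/
structure Auto (N : Set (T X)) : Prop where
  one : 1 ∈ N
  inv : ∀ a ∈ N, a⁻¹ ∈ N
  sec : ∀ a ∈ N, ∀ x, Pool.Agent.Y462.SS.sec a x ∈ N
  contr : ∀ a ∈ N, ∀ b ∈ N, ∃ k : ℕ, ∀ v : List X, v.length = k →
    secw (toWr X) (a * b) v ∈ N

variable {N : Set (T X)}

theorem of_list_eq_one {G : Type} [Group G] {N : Set G} (l : List N) (h : l.length ≤ 3)
    (h1 : (l.map Subtype.val).prod = 1) :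
    (l.map (PresentedGroup.of : N → Cover N)).prod = 1 := by
  have h2 : (l.map FreeGroup.of).prod ∈ rels N := ⟨l, h, h1, rfl⟩
  have h3 : PresentedGroup.mk (rels N) (l.map FreeGroup.of).prod = 1 :=
    PresentedGroup.one_of_mem h2
  rw [map_list_prod, List.map_map] at h3
  exact h3

theorem of_one {G : Type} [Group G] {N : Set G} (h : 1 ∈ N) :
    (PresentedGroup.of ⟨1, h⟩ : Cover N) = 1 := by
  have h1 := of_list_eq_one (N := N) [⟨1, h⟩] (by simp) (by simp)
  simpa using h1

theorem of_mul {G : Type} [Group G] {N : Set G} (a b c : N) (hc : (c : G)⁻¹ ∈ N)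
    (h : (a : G) * b = c) :
    (PresentedGroup.of a * PresentedGroup.of b : Cover N) = PresentedGroup.of c := by
  have h1 := of_list_eq_one (N := N) [a, b, ⟨(c : G)⁻¹, hc⟩] (by simp) (by simp [← mul_assoc, h])
  have h2 := of_list_eq_one (N := N) [c, ⟨(c : G)⁻¹, hc⟩] (by simp) (by simp)
  simp only [List.map_cons, List.map_nil, List.prod_cons, List.prod_nil, mul_one] at h1 h2
  rw [← mul_assoc] at h1
  exact mul_right_cancel (h1.trans h2.symm)

theorem of_inv {G : Type} [Group G] {N : Set G} (a : N) (ha : (a : G)⁻¹ ∈ N) :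
    ((PresentedGroup.of a)⁻¹ : Cover N) = PresentedGroup.of ⟨(a : G)⁻¹, ha⟩ := by
  have h2 := of_list_eq_one (N := N) [a, ⟨(a : G)⁻¹, ha⟩] (by simp) (by simp)
  simp only [List.map_cons, List.map_nil, List.prod_cons, List.prod_nil, mul_one] at h2
  exact inv_eq_of_mul_eq_one_right h2

/-- the values of the recursion on the generators -/
def gen (hN : Auto N) (a : N) : Wr X (Cover N) :=
  ⟨fun x => PresentedGroup.of ⟨sec a.1 x, hN.sec a.1 a.2 x⟩, root a.1⟩

/-- the sections of a product -/
def secl (hN : Auto N) : List N → X → List N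
  | [], _ => []
  | a :: l, x => ⟨sec a.1 (root (l.map Subtype.val).prod x), hN.sec a.1 a.2 _⟩ :: secl hN l x

theorem secl_length (hN : Auto N) (l : List N) (x : X) : (secl hN l x).length = l.length := by
  induction l with
  | nil => rfl
  | cons a l ih => rw [secl, List.length_cons, List.length_cons, ih]

theorem secl_prod (hN : Auto N) (l : List N) (x : X) :
    ((secl hN l x).map Subtype.val).prod = sec (l.map Subtype.val).prod x := by
  induction l with
  | nil => exact (sec_one x).symm
  | cons a l ih =>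
    rw [secl, List.map_cons, List.prod_cons, List.map_cons, List.prod_cons, ih, sec_mul]

theorem lift_gen (hN : Auto N) (l : List N) :
    FreeGroup.lift (gen hN) (l.map FreeGroup.of).prod =
      ⟨fun x => ((secl hN l x).map PresentedGroup.of).prod, root (l.map Subtype.val).prod⟩ := by
  induction l with
  | nil =>
    rw [List.map_nil, List.prod_nil, map_one]
    apply Wr.ext
    · rfl
    · exact root_one.symm
  | cons a l ih =>
    rw [List.map_cons, List.prod_cons, map_mul, ih, FreeGroup.lift_apply_of]
    apply Wr.ext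
    · funext x
      rw [Wr.mul_s]
      exact (List.prod_cons (a := (PresentedGroup.of
        ⟨sec a.1 (root (l.map Subtype.val).prod x), hN.sec a.1 a.2 _⟩ : Cover N))).symm
    · rw [Wr.mul_p, List.map_cons, List.prod_cons, root_mul]
      rfl

/-- the recursion of the cover -/
def psi (hN : Auto N) : Cover N →* Wr X (Cover N) :=
  PresentedGroup.toGroup (f := gen hN) (by
    rintro r ⟨l, hl, h1, rfl⟩
    rw [lift_gen]
    apply Wr.ext
    · funext x
      refine of_list_eq_one _ ?_ ?_
      · rw [secl_length]; exact hl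
      · rw [secl_prod, h1, sec_one]
    · rw [h1]
      exact root_one)

theorem psi_of (hN : Auto N) (a : N) : psi hN (PresentedGroup.of a) = gen hN a :=
  PresentedGroup.toGroup.of _

theorem act_psi_of (hN : Auto N) (a : N) (w : List X) :
    act (psi hN) (PresentedGroup.of a) w = a.1.1 w := by
  induction w generalizing a with
  | nil => rw [act_nil, nil_eq]
  | cons x w ih =>
    rw [act_cons, cons_eq, psi_of]
    show root a.1 x :: act (psi hN) (PresentedGroup.of ⟨sec a.1 x, hN.sec a.1 a.2 x⟩) w = _
    rw [ih]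

theorem tau_psi_of (hN : Auto N) (a : N) : tau (psi hN) (PresentedGroup.of a) = a.1 := by
  apply Subtype.ext
  apply Equiv.ext
  exact act_psi_of hN a

theorem secw_psi_of (hN : Auto N) (a : N) (v : List X) :
    ∃ b : N, secw (psi hN) (PresentedGroup.of a) v = PresentedGroup.of b ∧
      (b : T X) = secw (toWr X) a.1 v := by
  induction v generalizing a with
  | nil => exact ⟨a, rfl, rfl⟩
  | cons x v ih =>
    obtain ⟨b, h1, h2⟩ := ih ⟨sec a.1 x, hN.sec a.1 a.2 x⟩
    refine ⟨b, ?_, h2⟩
    rw [secw_cons, psi_of]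
    exact h1

theorem secw_psi_mul (hN : Auto N) (a b : N) :
    ∃ k : ℕ, ∀ v : List X, k ≤ v.length →
      ∃ c : N, secw (psi hN) (PresentedGroup.of a * PresentedGroup.of b) v =
        PresentedGroup.of c := by
  obtain ⟨k, hk⟩ := hN.contr a.1 a.2 b.1 b.2
  refine ⟨k, fun v hv => ?_⟩
  have key : ∀ v : List X, v.length = k →
      ∃ c : N, secw (psi hN) (PresentedGroup.of a * PresentedGroup.of b) v =
        PresentedGroup.of c := by
    intro v hv
    rw [secw_mul]
    obtain ⟨a', h1, h2⟩ := secw_psi_of hN a (act (psi hN) (PresentedGroup.of b) v)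
    obtain ⟨b', h3, h4⟩ := secw_psi_of hN b v
    have h5 : (a' : T X) * b' = secw (toWr X) (a.1 * b.1) v := by
      rw [secw_mul, h2, h4, act_psi_of]
      congr 2
      have h6 : ∀ (g : T X) (w : List X), act (toWr X) g w = g.1 w := by
        intro g w
        induction w generalizing g with
        | nil => rw [act_nil, nil_eq]
        | cons x w ih => rw [act_cons, cons_eq, toWr_p, toWr_s, ih]
      exact (h6 b.1 v).symm
    have h6 : secw (toWr X) (a.1 * b.1) v ∈ N := hk v hv
    refine ⟨⟨_, h6⟩, ?_⟩
    rw [h1, h3]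
    exact of_mul a' b' ⟨_, h6⟩ (hN.inv _ h6) h5
  have h1 : v = v.take k ++ v.drop k := (List.take_append_drop k v).symm
  rw [h1, secw_append]
  obtain ⟨c, hc⟩ := key (v.take k) (by rw [List.length_take]; omega)
  rw [hc]
  obtain ⟨d, hd, -⟩ := secw_psi_of hN c (v.drop k)
  exact ⟨d, hd⟩

theorem psi_contracting [Finite X] (hN : Auto N) (γ : Cover N) :
    ∃ n : ℕ, ∀ v : List X, n ≤ v.length →
      secw (psi hN) γ v ∈ Set.range (PresentedGroup.of : N → Cover N) := by
  have hmul : ∀ (a : N) (γ : Cover N), (∃ n : ℕ, ∀ v : List X, n ≤ v.length →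
      secw (psi hN) γ v ∈ Set.range (PresentedGroup.of : N → Cover N)) →
      ∃ n : ℕ, ∀ v : List X, n ≤ v.length →
        secw (psi hN) (PresentedGroup.of a * γ) v ∈
          Set.range (PresentedGroup.of : N → Cover N) := by
    rintro a γ ⟨n, hn⟩
    have h1 : ∀ u : List X, u ∈ {u : List X | u.length = n} → ∃ k : ℕ, ∀ v : List X,
        k ≤ v.length → secw (psi hN) (secw (psi hN) (PresentedGroup.of a * γ) u) v ∈
          Set.range (PresentedGroup.of : N → Cover N) := by
      intro u hu
      obtain ⟨b, hb⟩ := hn u (le_of_eq hu.symm)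
      obtain ⟨a', ha', -⟩ := secw_psi_of hN a (act (psi hN) γ u)
      obtain ⟨k, hk⟩ := secw_psi_mul hN a' b
      refine ⟨k, fun v hv => ?_⟩
      rw [secw_mul, ← hb, ha']
      obtain ⟨c, hc⟩ := hk v hv
      exact ⟨c, hc.symm⟩
    choose! k hk using h1
    obtain ⟨M, hM⟩ := ((List.finite_length_eq X n).image k).bddAbove
    refine ⟨n + M, fun v hv => ?_⟩
    have h2 : v = v.take n ++ v.drop n := (List.take_append_drop n v).symm
    have h3 : v.take n ∈ {u : List X | u.length = n} := by
      show (v.take n).length = n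
      rw [List.length_take]; omega
    rw [h2, secw_append]
    refine hk _ h3 _ ?_
    have h4 := hM (Set.mem_image_of_mem k h3)
    rw [List.length_drop]
    omega
  have hγ : γ ∈ Subgroup.closure (Set.range (PresentedGroup.of : N → Cover N)) := by
    rw [PresentedGroup.closure_range_of]
    exact Subgroup.mem_top γ
  induction hγ using Subgroup.closure_induction_left with
  | one =>
    refine ⟨0, fun v _ => ?_⟩
    rw [secw_one]
    exact ⟨⟨1, hN.one⟩, of_one hN.one⟩
  | mul_left x hx y hy ih =>
    obtain ⟨a, rfl⟩ := hx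
    exact hmul a y ih
  | inv_mul_cancel x hx y hy ih =>
    obtain ⟨a, rfl⟩ := hx
    rw [of_inv a (hN.inv a.1 a.2)]
    exact hmul _ y ih

theorem range_psi (hN : Auto N) : (tau (psi hN)).range = Subgroup.closure N := by
  rw [MonoidHom.range_eq_map, ← PresentedGroup.closure_range_of, MonoidHom.map_closure]
  congr 1
  ext g
  constructor
  · rintro ⟨_, ⟨a, rfl⟩, rfl⟩
    rw [tau_psi_of]
    exact a.2
  · intro hg
    exact ⟨PresentedGroup.of ⟨g, hg⟩, ⟨_, rfl⟩, tau_psi_of hN ⟨g, hg⟩⟩

/-- **the finitely presented cover** -/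
theorem cover_main (C : ∀ (G : Type) [Group G], Prop) (hC : Closed C) [Finite X]
    (hN : Auto N) (h : C (Cover N)) : C (Subgroup.closure N) := by
  have h1 : C (tau (psi hN)).range := by
    refine stat_nucleus (psi hN) C hC h _ (psi_contracting hN) ?_
    rintro _ ⟨a, rfl⟩ ha
    rw [tau_psi_of] at ha
    have h2 : a = ⟨1, hN.one⟩ := Subtype.ext ha
    rw [h2]
    exact of_one hN.one
  rw [range_psi] at h1
  exact h1

end cover

end Pool.Agent.U863.CT
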