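import Pool.Agent.U863.CT.Gpd

/-!
# Elements of finite order in free products, and quotients of free products by them

Owner helper863.
-/

set_option autoImplicit false

namespace Pool.Agent.U863.CT

open Pool.Agent.Y462.SS Monoid.CoprodI

section tors

variable {ι : Type} {M : ι → Type} [∀ i, Group (M i)]

/-- the product of a list of letters -/
def lprod (l : List (Σ i, M i)) : Monoid.CoprodI M := (l.map fun s => of s.2).prod

theorem lprod_append (l l' : List (Σ i, M i)) : lprod (l ++ l') = lprod l * lprod l' := by
  rw [lprod, List.map_append, List.prod_append]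
  rfl

theorem lprod_cons (s : Σ i, M i) (l : List (Σ i, M i)) : lprod (s :: l) = of s.2 * lprod l := by
  rw [lprod, List.map_cons, List.prod_cons]
  rfl

theorem lprod_singleton (s : Σ i, M i) : lprod [s] = of s.2 := by
  rw [lprod, List.map_cons, List.map_nil, List.prod_cons, List.prod_nil, mul_one]

theorem newWord_pow {i j : ι} (w : NeWord M i j) (h : j ≠ i) (k : ℕ) :
    ∃ w' : NeWord M i j, w'.prod = w.prod ^ (k + 1) := by
  induction k with
  | zero => exact ⟨w, by rw [zero_add, pow_one]⟩
  | succ k ih =>
    obtain ⟨w', hw'⟩ := ih
    refine ⟨NeWord.append w h w', ?_⟩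
    rw [NeWord.append_prod, hw', ← pow_succ']

theorem newWord_ne_one {i j : ι} (w : NeWord M i j) : w.prod ≠ 1 := by
  classical
  intro h
  have h1 : w.toWord.prod = (Word.empty : Word M).prod := by
    rw [Word.prod_empty]
    exact h
  have h2 : w.toWord = Word.empty := Word.equiv.symm.injective h1
  exact NeWord.toList_ne_nil w (congrArg Word.toList h2)

theorem newWord_inf {i j : ι} (w : NeWord M i j) (h : j ≠ i) : ¬ IsOfFinOrder w.prod := by
  intro h1
  rw [isOfFinOrder_iff_pow_eq_one] at h1
  obtain ⟨k, hk, h1⟩ := h1
  obtain ⟨k, rfl⟩ : ∃ k', k = k' + 1 := ⟨k - 1, by omega⟩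
  obtain ⟨w', hw'⟩ := newWord_pow w h k
  exact newWord_ne_one w' (hw'.trans h1)

theorem torsion_list (n : ℕ) : ∀ l : List (Σ i, M i), l.length = n → (∀ s ∈ l, s.2 ≠ 1) →
    (l.map Sigma.fst).IsChain (fun a b => a ≠ b) → IsOfFinOrder (lprod l) →
    lprod l = 1 ∨ ∃ (i : ι) (a : M i) (c : Monoid.CoprodI M), lprod l = c * of a * c⁻¹ := by
  classical
  induction n using Nat.strong_induction_on with
  | _ n ih =>
    intro l hl hne hch hfin
    rcases List.eq_nil_or_concat l with rfl | ⟨l₁, t, rfl⟩
    · exact Or.inl rfl
    rcases l₁ with - | ⟨s, l'⟩
    · right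
      refine ⟨t.1, t.2, 1, ?_⟩
      simp [lprod]
    · -- the word is `s :: (l' ++ [t])`
      by_cases hst : s.1 = t.1
      · obtain ⟨i, x⟩ := s
        obtain ⟨i', y⟩ := t
        simp only at hst
        subst hst
        have hlen : l'.length + 2 = n := by simpa using hl
        have hg : lprod ((⟨i, x⟩ :: l').concat ⟨i, y⟩ : List (Σ i, M i)) =
            of x * (lprod l' * of y) := by
          rw [List.concat_eq_append, lprod_append, lprod_cons, lprod_singleton, mul_assoc]
        have hconj : IsOfFinOrder (lprod l' * of (y * x)) := by
          have h1 : lprod l' * of (y * x) =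
              MulAut.conj (of x)⁻¹ (lprod ((⟨i, x⟩ :: l').concat ⟨i, y⟩ : List (Σ i, M i))) := by
            rw [hg, MulAut.conj_apply, map_mul, inv_inv]
            group
          rw [h1]
          exact (MulAut.conj (of x)⁻¹).toMonoidHom.isOfFinOrder hfin
        have hback : ∀ r, lprod l' * of (y * x) = r →
            lprod ((⟨i, x⟩ :: l').concat ⟨i, y⟩ : List (Σ i, M i)) = of x * r * (of x)⁻¹ := by
          rintro r rfl
          rw [hg, map_mul]
          group
        have hne' : ∀ s ∈ l', s.2 ≠ 1 := fun s hs => hne s (by simp [hs])
        have hch' : (l'.map Sigma.fst ++ [i]).IsChain (fun a b => a ≠ b) := by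
          have h1 : (i :: (l'.map Sigma.fst ++ [i])).IsChain (fun a b => a ≠ b) := by
            simpa using hch
          exact h1.tail
        by_cases hyx : y * x = 1
        · rw [hyx, map_one, mul_one] at hconj hback
          have h1 := ih l'.length (by omega) l' rfl hne' (hch'.left_of_append) hconj
          rcases h1 with h1 | ⟨j, a, c, h1⟩
          · left
            rw [hback _ h1, mul_one, mul_inv_cancel]
          · right
            refine ⟨j, a, of x * c, ?_⟩
            rw [hback _ h1, mul_inv_rev]
            group
        · have h2 : lprod (l' ++ [⟨i, y * x⟩]) = lprod l' * of (y * x) := by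
            rw [lprod_append, lprod_singleton]
          rw [← h2] at hconj hback
          have h1 := ih (l' ++ [(⟨i, y * x⟩ : Σ i, M i)]).length (by simp; omega)
            (l' ++ [(⟨i, y * x⟩ : Σ i, M i)]) rfl ?_ ?_ hconj
          · rcases h1 with h1 | ⟨j, a, c, h1⟩
            · left
              rw [hback _ h1, mul_one, mul_inv_cancel]
            · right
              refine ⟨j, a, of x * c, ?_⟩
              rw [hback _ h1, mul_inv_rev]
              group
          · intro s hs
            rcases List.mem_append.1 hs with hs | hs
            · exact hne' s hs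
            · rw [List.mem_singleton] at hs
              subst hs
              exact hyx
          · simpa using hch'
      · exfalso
        let w : Word M :=
          { toList := (s :: l').concat t
            ne_one := hne
            chain_ne := (List.isChain_map Sigma.fst).1 hch }
        have hw : w ≠ Word.empty := by
          intro h
          have h1 := congrArg Word.toList h
          simp [w] at h1
        obtain ⟨i, j, w', hw'⟩ := NeWord.of_word w hw
        have h1 : w'.toList = s :: (l' ++ [t]) := by
          have h2 : w'.toList = w.toList := congrArg Word.toList hw'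
          rw [h2]
          show (s :: l').concat t = _
          rw [List.concat_eq_append, List.cons_append]
        have hi : i = s.1 := by
          have h2 := w'.toList_head?
          rw [h1] at h2
          simp only [List.head?_cons, Option.some.injEq] at h2
          rw [h2]
        have hj : j = t.1 := by
          have h2 := w'.toList_getLast?
          rw [h1] at h2
          have h3 : (s :: (l' ++ [t])).getLast? = some t := by
            rw [← List.cons_append, List.getLast?_concat]
          rw [h3] at h2
          simp only [Option.some.injEq] at h2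
          rw [h2]
        have h2 : w'.prod = lprod ((s :: l').concat t) := by
          rw [NeWord.prod, hw']
          rfl
        refine newWord_inf w' ?_ (h2 ▸ hfin)
        rw [hi, hj]
        exact fun h => hst h.symm

/-- elements of finite order in free products are conjugate to elements of the factors -/
theorem torsion_coprodI (g : Monoid.CoprodI M) (hg : IsOfFinOrder g) :
    g = 1 ∨ ∃ (i : ι) (a : M i) (c : Monoid.CoprodI M), g = c * of a * c⁻¹ := by
  classical
  let w : Word M := Word.equiv g
  have h1 : lprod w.toList = g := Word.equiv.symm_apply_apply g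
  have h2 := torsion_list w.toList.length w.toList rfl w.ne_one
    ((List.isChain_map Sigma.fst).2 w.chain_ne) (by rw [h1]; exact hg)
  rwa [h1] at h2

/-- the elements of the factor `i` whose conjugates are in `S` -/
def facS (S : Set (Monoid.CoprodI M)) (i : ι) : Set (M i) :=
  {a | ∃ c : Monoid.CoprodI M, c * of a * c⁻¹ ∈ S}

/-- quotients of free products by elements of finite order -/
theorem C_quot (C : ∀ (G : Type) [Group G], Prop) (hC : Closed C) (S : Set (Monoid.CoprodI M))
    (hS : ∀ s ∈ S, IsOfFinOrder s)
    (hA : ∀ i, C (M i ⧸ Subgroup.normalClosure (facS S i))) :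
    C (Monoid.CoprodI M ⧸ Subgroup.normalClosure S) := by
  let B : ι → Type := fun i => M i ⧸ Subgroup.normalClosure (facS S i)
  let f : Monoid.CoprodI M →* Monoid.CoprodI B :=
    Monoid.CoprodI.lift fun i =>
      (of (M := B) (i := i)).comp (QuotientGroup.mk' (Subgroup.normalClosure (facS S i)))
  have hf : Subgroup.normalClosure S ≤ f.ker := by
    refine Subgroup.normalClosure_le_normal ?_
    intro s hs
    show f s = 1
    rcases torsion_coprodI s (hS s hs) with rfl | ⟨i, a, c, rfl⟩
    · exact map_one f
    · have h1 : f (of a) = 1 := by
        rw [Monoid.CoprodI.lift_of]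
        show of (M := B) (i := i) (QuotientGroup.mk a) = 1
        have h2 : (QuotientGroup.mk a : B i) = 1 :=
          (QuotientGroup.eq_one_iff a).2 (Subgroup.subset_normalClosure ⟨c, hs⟩)
        rw [h2, map_one]
      rw [map_mul, map_mul, map_inv, h1, mul_one, mul_inv_cancel]
  let F : Monoid.CoprodI M ⧸ Subgroup.normalClosure S →* Monoid.CoprodI B :=
    QuotientGroup.lift _ f hf
  let q : Monoid.CoprodI M →* Monoid.CoprodI M ⧸ Subgroup.normalClosure S :=
    QuotientGroup.mk' _
  let K : Monoid.CoprodI B →* Monoid.CoprodI M ⧸ Subgroup.normalClosure S :=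
    Monoid.CoprodI.lift fun i =>
      QuotientGroup.lift (Subgroup.normalClosure (facS S i)) (q.comp (of (M := M) (i := i))) (by
        have h1 : Subgroup.normalClosure (facS S i) ≤ (q.comp (of (M := M) (i := i))).ker := by
          refine Subgroup.normalClosure_le_normal ?_
          rintro a ⟨c, hc⟩
          show q (of a) = 1
          have h2 : q (c * of a * c⁻¹) = 1 :=
            (QuotientGroup.eq_one_iff _).2 (Subgroup.subset_normalClosure hc)
          rw [map_mul, map_mul, map_inv] at h2
          have h3 : q (of a) = (q c)⁻¹ * (q c * q (of a) * (q c)⁻¹) * q c := by group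
          rw [h3, h2]
          group
        exact fun a ha => h1 ha)
  have hKF : ∀ y, K (F y) = y := by
    intro y
    obtain ⟨g, rfl⟩ := QuotientGroup.mk'_surjective _ y
    have h1 : (K.comp f) = q := by
      apply Monoid.CoprodI.ext_hom
      intro i
      ext a
      show K (f (of a)) = q (of a)
      rw [Monoid.CoprodI.lift_of]
      show K (of (M := B) (i := i) (QuotientGroup.mk a)) = q (of a)
      rw [Monoid.CoprodI.lift_of]
      rfl
    exact DFunLike.congr_fun h1 g
  exact hC.of_injective _ _ F (Function.LeftInverse.injective hKF) (C_coprodI C hC hA)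

end tors

end Pool.Agent.U863.CT
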