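import Pool.Agent.U863.CT.Base

/-!
# Contracting sequences of wreath recursions: the elements which act trivially

Owner helper863.
-/

set_option autoImplicit false

namespace Pool.Agent.U863.CT

open Pool.Agent.Y462.SS

/-- if all products of at most `B` generators and inverses of generators are in a set with at most
`B` elements, then the whole group is in this set -/
theorem closure_subset_of_ball {G : Type} [Group G] (T N : Set G) (hN : N.Finite) (B : ℕ)
    (hB : N.ncard ≤ B)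
    (hT : ∀ l : List G, l.length ≤ B → (∀ a ∈ l, a ∈ T ∨ a⁻¹ ∈ T) → l.prod ∈ N) :
    ∀ g ∈ Subgroup.closure T, g ∈ N := by
  set ball : ℕ → Set G := fun k =>
    {g | ∃ l : List G, l.length ≤ k ∧ (∀ a ∈ l, a ∈ T ∨ a⁻¹ ∈ T) ∧ l.prod = g} with hball
  have hmono : Monotone ball := by
    apply monotone_nat_of_le_succ
    rintro k g ⟨l, h1, h2, h3⟩
    exact ⟨l, h1.trans (Nat.le_succ k), h2, h3⟩
  have hsub : ball B ⊆ N := by
    rintro g ⟨l, h1, h2, rfl⟩
    exact hT l h1 h2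
  have hfin : ∀ k ≤ B, (ball k).Finite := fun k hk => hN.subset ((hmono hk).trans hsub)
  have h1 : ∃ r < B, ball (r + 1) ⊆ ball r := by
    by_contra hcon
    push Not at hcon
    have h2 : ∀ r ≤ B, r + 1 ≤ (ball r).ncard := by
      intro r
      induction r with
      | zero =>
        intro h0
        have h3 : (1 : G) ∈ ball 0 := ⟨[], le_rfl, by simp, rfl⟩
        exact (Set.ncard_pos (hfin 0 h0)).2 ⟨1, h3⟩
      | succ r ih =>
        intro hr
        have h3 := ih (by omega)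
        have h4 : ball r ⊂ ball (r + 1) :=
          ⟨hmono (Nat.le_succ r), hcon r (by omega)⟩
        have h5 := Set.ncard_lt_ncard h4 (hfin (r + 1) hr)
        omega
    have h3 := h2 B le_rfl
    have h4 := Set.ncard_le_ncard hsub hN
    omega
  obtain ⟨r, hr, h2⟩ := h1
  have h3 : ∀ k, ball k ⊆ ball r := by
    intro k
    induction k with
    | zero => exact hmono (Nat.zero_le r)
    | succ k ih =>
      rintro g ⟨l, h3, h4, rfl⟩
      cases l with
      | nil => exact hmono (Nat.zero_le r) ⟨[], le_rfl, by simp, rfl⟩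
      | cons a l =>
        have h5 : l.prod ∈ ball k := by
          refine ⟨l, ?_, fun b hb => h4 b (List.mem_cons_of_mem _ hb), rfl⟩
          simpa using h3
        obtain ⟨l', h6, h7, h8⟩ := ih h5
        apply h2
        refine ⟨a :: l', by simpa using h6, ?_, by rw [List.prod_cons, List.prod_cons, h8]⟩
        intro b hb
        rcases List.mem_cons.1 hb with rfl | hb
        · exact h4 _ (List.mem_cons_self)
        · exact h7 b hb
  intro g hg
  rw [← Subgroup.mem_toSubmonoid, Subgroup.closure_toSubmonoid] at hg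
  obtain ⟨l, h4, h5⟩ := Submonoid.exists_list_of_mem_closure hg
  exact hsub (hmono hr.le (h3 l.length ⟨l, le_rfl, h4, h5⟩))

section seq

variable {X Γ : ℕ → Type} [∀ n, Group (Γ n)] {ψ : ∀ n, Γ n →* Wr (X n) (Γ (n + 1))}
  {N : ∀ n, Set (Γ n)}

variable (ψ N) in
/-- from some level on all sections of `γ` are in the sets `N n` -/
def Eventually (γ : Γ 0) : Prop :=
  ∃ m₀ : ℕ, ∀ m ≥ m₀, AllS ψ (fun n (s : Unit → Γ n) => s () ∈ N n) m 0 (fun _ => γ)

theorem HomTriv.one {H : Type} [Group H] {n : ℕ} {t : H → Γ n} (h : HomTriv (ψ := ψ) n t) :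
    t 1 = 1 := (MonoidHom.mk' t h.1).map_one

theorem HomTriv.inv {H : Type} [Group H] {n : ℕ} {t : H → Γ n} (h : HomTriv (ψ := ψ) n t)
    (a : H) : t a⁻¹ = (t a)⁻¹ := (MonoidHom.mk' t h.1).map_inv a

theorem HomTriv.pow {H : Type} [Group H] {n : ℕ} {t : H → Γ n} (h : HomTriv (ψ := ψ) n t)
    (a : H) (k : ℕ) : t (a ^ k) = t a ^ k := (MonoidHom.mk' t h.1).map_pow a k

/-- finitely many elements at the same time -/
theorem eventually_finite {H : Type} (t : H → Γ 0) (S : Set H) (hS : S.Finite)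
    (h : ∀ a ∈ S, Eventually ψ N (t a)) :
    ∃ m₀ : ℕ, ∀ m ≥ m₀, AllS ψ (fun n s => ∀ a ∈ S, s a ∈ N n) m 0 t := by
  choose! m₀ hm₀ using h
  obtain ⟨M, hM⟩ := (hS.image m₀).bddAbove
  refine ⟨M, fun m hm => ?_⟩
  have h1 : ∀ a : S, AllS ψ (fun n s => s a.1 ∈ N n) m 0 t := by
    intro a
    have h2 := hm₀ a.1 a.2 m ((hM (Set.mem_image_of_mem m₀ a.2)).trans hm)
    exact (allS_comp (fun _ : Unit => a.1)).1 h2
  refine AllS.mono ?_ (AllS.forall h1)
  intro n s h a ha
  exact h ⟨a, ha⟩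

/-- the sections of an element which acts trivially have finite order at most `B` -/
theorem eventually_torsion {H : Type} [Group H] (t : H → Γ 0) (ht : HomTriv (ψ := ψ) 0 t)
    (hcon : ∀ a, Eventually ψ N (t a)) (B : ℕ) (hN : ∀ n, (N n).Finite ∧ (N n).ncard ≤ B)
    (a : H) : ∃ m₀ : ℕ, ∀ m ≥ m₀,
      AllS ψ (fun n s => HomTriv (ψ := ψ) n s ∧ ∃ k, 0 < k ∧ k ≤ B ∧ s a ^ k = 1) m 0 t := by
  obtain ⟨m₀, h⟩ := eventually_finite (N := N) t ((fun k => a ^ k) '' (Set.Iic B))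
    ((Set.finite_Iic B).image _) (fun b _ => hcon b)
  refine ⟨m₀, fun m hm => ?_⟩
  refine AllS.mono ?_ (AllS.and (allS_homTriv m ht) (h m hm))
  rintro n s ⟨h1, h2⟩
  refine ⟨h1, ?_⟩
  have h3 : ∀ k ∈ Finset.range (B + 1), s a ^ k ∈ (hN n).1.toFinset := by
    intro k hk
    rw [Set.Finite.mem_toFinset, ← h1.pow]
    exact h2 _ ⟨k, by simpa [Nat.lt_succ_iff] using hk, rfl⟩
  have h4 : (hN n).1.toFinset.card < (Finset.range (B + 1)).card := by
    rw [Finset.card_range, ← Set.ncard_eq_toFinset_card (N n) (hN n).1]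
    exact Nat.lt_succ_of_le (hN n).2
  obtain ⟨i, hi, j, hj, hij, h5⟩ :=
    Finset.exists_ne_map_eq_of_card_lt_of_maps_to h4 h3
  have key : ∀ i j : ℕ, i < j → j ≤ B → s a ^ i = s a ^ j → ∃ k, 0 < k ∧ k ≤ B ∧ s a ^ k = 1 := by
    intro i j hij hj h
    refine ⟨j - i, by omega, by omega, ?_⟩
    have h6 : s a ^ j = s a ^ i * s a ^ (j - i) := by rw [← pow_add]; congr 1; omega
    rw [h6] at h
    exact (mul_eq_left.1 h.symm)
  rw [Finset.mem_range] at hi hj
  rcases lt_or_gt_of_ne hij with h6 | h6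
  · exact key i j h6 (by omega) h5
  · exact key j i h6 (by omega) h5.symm

variable (ψ) in
/-- the inclusion of the elements which act trivially -/
theorem homTriv_sub (H : Subgroup (Γ 0)) (hH : H ≤ ker0 ψ 0) :
    HomTriv (ψ := ψ) 0 (fun h : H => (h : Γ 0)) :=
  ⟨fun _ _ => rfl, fun h => hH h.2⟩

/-- a power of exponent `B!` dies -/
theorem pow_mem_dying (hcon : ∀ γ, Eventually ψ N γ) (B : ℕ)
    (hN : ∀ n, (N n).Finite ∧ (N n).ncard ≤ B) (γ : Γ 0) (hγ : ActsTriv ψ 0 γ) :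
    γ ^ B.factorial ∈ dying ψ 0 := by
  have ht := homTriv_sub ψ (ker0 ψ 0) le_rfl
  obtain ⟨m, h⟩ := eventually_torsion (N := N) _ ht (fun a => hcon a) B hN ⟨γ, hγ⟩
  rw [mem_dying]
  refine ⟨m, ?_⟩
  refine mem_Km_of ψ ((⟨γ, hγ⟩ : ker0 ψ 0) ^ B.factorial) m 0 (fun h : ker0 ψ 0 => (h : Γ 0))
    (ht.2 _) ?_
  refine AllS.mono ?_ (h m le_rfl)
  rintro n s ⟨h1, k, h2, h3, h4⟩
  rw [h1.pow]
  obtain ⟨c, hc⟩ := Nat.dvd_factorial h2 h3
  rw [hc, pow_mul, h4, one_pow]

/-- if infinitely many levels have no elements of finite order which act trivially, then all elements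
which act trivially die -/
theorem mem_dying_of_torsion (hcon : ∀ γ, Eventually ψ N γ) (B : ℕ)
    (hN : ∀ n, (N n).Finite ∧ (N n).ncard ≤ B)
    (htor : ∀ m, ∃ n ≥ m, ∀ γ : Γ n, IsOfFinOrder γ → ActsTriv ψ n γ → γ = 1)
    (γ : Γ 0) (hγ : ActsTriv ψ 0 γ) : γ ∈ dying ψ 0 := by
  have ht := homTriv_sub ψ (ker0 ψ 0) le_rfl
  obtain ⟨m₀, h⟩ := eventually_torsion (N := N) _ ht (fun a => hcon a) B hN ⟨γ, hγ⟩
  obtain ⟨m, hm, htm⟩ := htor m₀
  rw [mem_dying]
  refine ⟨m, ?_⟩
  refine mem_Km_of ψ (⟨γ, hγ⟩ : ker0 ψ 0) m 0 (fun h : ker0 ψ 0 => (h : Γ 0)) (ht.2 _) ?_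
  refine AllS.mono ?_ (AllS.and (allS_level m 0 _) (h m hm))
  rintro n s ⟨hn, h1, k, h2, h3, h4⟩
  have hn' : n = m := by omega
  subst hn'
  exact htm _ (isOfFinOrder_iff_pow_eq_one.2 ⟨k, h2, h4⟩) (h1.2 _)

/-- finitely many elements which act trivially generate a finite group modulo the dying elements -/
theorem finite_mod_dying [∀ n, Finite (X n)] (hcon : ∀ γ, Eventually ψ N γ) (B : ℕ)
    (hN : ∀ n, (N n).Finite ∧ (N n).ncard ≤ B) (S : Set (Γ 0)) (hS : S.Finite)
    (hSt : ∀ γ ∈ S, ActsTriv ψ 0 γ) :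
    Finite ((Subgroup.closure S).map (QuotientGroup.mk' (dying ψ 0))) := by
  classical
  have hle : Subgroup.closure S ≤ ker0 ψ 0 := by
    rw [Subgroup.closure_le]
    exact hSt
  set H := Subgroup.closure S with hH
  set S' : Set H := {h | (h : Γ 0) ∈ S} with hS'
  have hS'f : S'.Finite := hS.preimage (Subtype.val_injective.injOn)
  have hgen : Subgroup.closure S' = ⊤ := Subgroup.closure_closure_coe_preimage
  have ht : HomTriv (ψ := ψ) 0 (fun h : H => (h : Γ 0)) := homTriv_sub ψ H hle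
  -- the products of at most `B` generators
  set U : Set H := {a | a ∈ S' ∨ a⁻¹ ∈ S'} with hU
  have hUf : U.Finite := by
    have h1 : U = S' ∪ Inv.inv ⁻¹' S' := rfl
    rw [h1]
    exact hS'f.union (hS'f.preimage inv_injective.injOn)
  have : Finite U := hUf
  set P : Set H := (fun l : List U => (l.map Subtype.val).prod) '' {l | l.length ≤ B} with hP
  have hPf : P.Finite := (List.finite_length_le U B).image _
  obtain ⟨m, h⟩ := eventually_finite (N := N) (fun h : H => (h : Γ 0)) P hPf (fun b _ => hcon b)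
  have h1 : AllS ψ (fun n s => HomTriv (ψ := ψ) n s ∧ ∀ a, s a ∈ N n) m 0
      (fun h : H => (h : Γ 0)) := by
    refine AllS.mono ?_ (AllS.and (allS_homTriv m ht) (h m le_rfl))
    rintro n s ⟨h1, h2⟩
    refine ⟨h1, fun a => ?_⟩
    have h3 : ∀ l : List (Γ n), (∀ b ∈ l, b ∈ s '' S' ∨ b⁻¹ ∈ s '' S') →
        ∃ l' : List U, l'.length = l.length ∧ s (l'.map Subtype.val).prod = l.prod := by
      intro l
      induction l with
      | nil => exact fun _ => ⟨[], rfl, by simpa using h1.one⟩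
      | cons b l ih =>
        intro hl
        obtain ⟨l', h3, h4⟩ := ih (fun c hc => hl c (List.mem_cons_of_mem _ hc))
        have h5 : ∃ u : U, s u.1 = b := by
          rcases hl b List.mem_cons_self with ⟨c, hc, hc'⟩ | ⟨c, hc, hc'⟩
          · exact ⟨⟨c, Or.inl hc⟩, hc'⟩
          · refine ⟨⟨c⁻¹, Or.inr (by simpa using hc)⟩, ?_⟩
            rw [h1.inv, hc', inv_inv]
        obtain ⟨u, hu⟩ := h5
        refine ⟨u :: l', by simp [h3], ?_⟩
        rw [List.map_cons, List.prod_cons, h1.1, hu, h4, List.prod_cons]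
    have h4 := closure_subset_of_ball (s '' S') (N n) (hN n).1 B (hN n).2 (by
      intro l hl hl'
      obtain ⟨l', h5, h6⟩ := h3 l hl'
      rw [← h6]
      exact h2 _ ⟨l', by simpa [h5] using hl, rfl⟩)
    apply h4
    have h5 : s a = (MonoidHom.mk' s h1.1) a := rfl
    rw [h5]
    have h6 : Subgroup.closure (s '' S') = (Subgroup.closure S').map (MonoidHom.mk' s h1.1) := by
      rw [MonoidHom.map_closure]
      rfl
    rw [h6, hgen]
    exact ⟨a, Subgroup.mem_top a, rfl⟩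
  obtain ⟨A, hA, q, hq⟩ := allS_classes (ψ := ψ) (m := m) (n := 0) (t := fun h : H => (h : Γ 0))
    (AllS.mono (fun n s h => (hN n).1.subset (Set.range_subset_iff.2 h.2)) h1)
  have h2 : ∀ i j : H, q i = q j →
      (QuotientGroup.mk (i : Γ 0) : Γ 0 ⧸ dying ψ 0) = QuotientGroup.mk (j : Γ 0) := by
    intro i j hij
    rw [QuotientGroup.eq, mem_dying]
    refine ⟨m, ?_⟩
    have h3 := mem_Km_of ψ (i⁻¹ * j) m 0 (fun h : H => (h : Γ 0)) (ht.2 _) (by
      refine AllS.mono ?_ (AllS.and h1 (hq i j hij))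
      rintro n s ⟨⟨h3, -⟩, h4⟩
      rw [h3.1, h3.inv, h4, inv_mul_cancel])
    exact h3
  have h3 : (((Subgroup.closure S).map (QuotientGroup.mk' (dying ψ 0)) :
      Subgroup (Γ 0 ⧸ dying ψ 0)) : Set (Γ 0 ⧸ dying ψ 0)).Finite := by
    refine (Set.finite_range (fun a : A => if h : ∃ i : H, q i = a then
      (QuotientGroup.mk ((Classical.choose h : H) : Γ 0) : Γ 0 ⧸ dying ψ 0) else 1)).subset ?_
    rintro y ⟨x, hx, rfl⟩
    refine ⟨q ⟨x, hx⟩, ?_⟩
    have h4 : ∃ i : H, q i = q ⟨x, hx⟩ := ⟨_, rfl⟩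
    simp only [dif_pos h4]
    exact h2 _ _ (Classical.choose_spec h4)
  exact h3

end seq

end Pool.Agent.U863.CT
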