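import Pool.Agent.U863.CT.Tfp
import Pool.Agent.U863.CT.GFin

/-!
# Contracting recursions on groups with torsion

Owner helper863.
-/

set_option autoImplicit false

namespace Pool.Agent.U863.CT

open Pool.Agent.Y462.SS
open Pool.Agent.Y331.SS (wmap wmap_s wmap_p)

section desc

variable {X Γ : Type} [Group Γ] (ψ : Γ →* Wr X Γ)

/-- the recursion on a quotient -/
def desc (R : Subgroup Γ) [R.Normal] (hR : R ≤ (phi ψ R).ker) : Γ ⧸ R →* Wr X (Γ ⧸ R) :=
  QuotientGroup.lift R (phi ψ R) hR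

variable {ψ} {R : Subgroup Γ} [R.Normal] (hR : R ≤ (phi ψ R).ker)

theorem desc_s (γ : Γ) (x : X) :
    (desc ψ R hR (QuotientGroup.mk γ)).s x = QuotientGroup.mk ((ψ γ).s x) := rfl

theorem desc_p (γ : Γ) : (desc ψ R hR (QuotientGroup.mk γ)).p = (ψ γ).p := rfl

theorem act_desc (γ : Γ) (w : List X) :
    act (desc ψ R hR) (QuotientGroup.mk γ) w = act ψ γ w := by
  induction w generalizing γ with
  | nil => rw [act_nil, act_nil]
  | cons x w ih => rw [act_cons, act_cons, desc_p, desc_s, ih]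

theorem tau_desc (γ : Γ) : tau (desc ψ R hR) (QuotientGroup.mk γ) = tau ψ γ := by
  apply Subtype.ext
  apply Equiv.ext
  exact act_desc hR γ

theorem secw_desc (γ : Γ) (v : List X) :
    secw (desc ψ R hR) (QuotientGroup.mk γ) v = QuotientGroup.mk (secw ψ γ v) := by
  induction v generalizing γ with
  | nil => rfl
  | cons x v ih => rw [secw_cons, secw_cons, desc_s, ih]

theorem range_desc : (tau (desc ψ R hR)).range = (tau ψ).range := by
  ext g
  constructor
  · rintro ⟨y, rfl⟩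
    obtain ⟨γ, rfl⟩ := QuotientGroup.mk_surjective y
    exact ⟨γ, (tau_desc hR γ).symm⟩
  · rintro ⟨γ, rfl⟩
    exact ⟨QuotientGroup.mk γ, tau_desc hR γ⟩

end desc

section tors

variable {X Γ : Type} [Group Γ] (ψ : Γ →* Wr X Γ)

theorem sec_pow_of_triv {t : Γ} (h : tau ψ t = 1) (x : X) (k : ℕ) :
    (ψ (t ^ k)).s x = ((ψ t).s x) ^ k := by
  have hp : (ψ t).p = 1 := by rw [← root_tau, h, root_one]
  induction k with
  | zero => rw [pow_zero, pow_zero, map_one]; rfl
  | succ k ih => rw [pow_succ, pow_succ, map_mul, Wr.mul_s, hp, ← ih]; rfl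

theorem finOrder_sec {t : Γ} (h : tau ψ t = 1) (h1 : IsOfFinOrder t) (x : X) :
    IsOfFinOrder ((ψ t).s x) := by
  rw [isOfFinOrder_iff_pow_eq_one] at h1 ⊢
  obtain ⟨k, hk, h1⟩ := h1
  refine ⟨k, hk, ?_⟩
  rw [← sec_pow_of_triv ψ h, h1, map_one]
  rfl

/-- the sections of an element which acts trivially have finite order at all large depths -/
theorem deep_torsion {N : Set Γ} (hNf : N.Finite)
    (hN : ∀ γ, ∃ n : ℕ, ∀ v : List X, n ≤ v.length → secw ψ γ v ∈ N) (γ : Γ) (hγ : tau ψ γ = 1) :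
    ∃ m₀ : ℕ, ∀ m ≥ m₀, ∀ v : List X, v.length = m → IsOfFinOrder (secw ψ γ v) := by
  have ht := homTriv_sub (X := fun _ => X) (Γ := fun _ => Γ) (fun _ => ψ)
    (ker0 (X := fun _ => X) (Γ := fun _ => Γ) (fun _ => ψ) 0) le_rfl
  obtain ⟨m₀, h⟩ := eventually_torsion (X := fun _ => X) (Γ := fun _ => Γ) (N := fun _ => N) _ ht
    (fun a => eventually_of ψ hN _) N.ncard (fun _ => ⟨hNf, le_rfl⟩)
    ⟨γ, (actsTriv_const ψ 0 γ).2 hγ⟩
  refine ⟨m₀, fun m hm => ?_⟩
  have h1 := AllS.mono (Q := fun _ s => IsOfFinOrder (s ⟨γ, (actsTriv_const ψ 0 γ).2 hγ⟩)) (by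
    rintro n s ⟨-, k, hk, -, h2⟩
    exact isOfFinOrder_iff_pow_eq_one.2 ⟨k, hk, h2⟩) (h m hm)
  exact (allS_const ψ (fun s => IsOfFinOrder (s _)) m 0 _).1 h1

/-- **removing the torsion which acts trivially** -/
theorem tors_main (C : ∀ (G : Type) [Group G], Prop) (hC : Closed C) [Finite X]
    (hψ : Contracting ψ) :
    ∃ S : Set Γ, S.Finite ∧ (∀ s ∈ S, IsOfFinOrder s ∧ tau ψ s = 1) ∧
      (C (Γ ⧸ Subgroup.normalClosure S) → C (tau ψ).range) := by
  obtain ⟨N, hNf, hN⟩ := hψ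
  have hsec : ∀ γ : Γ, (Set.range (secw ψ γ)).Finite := by
    intro γ
    obtain ⟨n, hn⟩ := hN γ
    refine (((List.finite_length_lt X n).image (secw ψ γ)).union hNf).subset ?_
    rintro _ ⟨v, rfl⟩
    rcases lt_or_ge v.length n with h | h
    · exact Or.inl ⟨v, h, rfl⟩
    · exact Or.inr (hn v h)
  set S : Set Γ := {t | IsOfFinOrder t ∧ tau ψ t = 1 ∧ ∃ a ∈ N, ∃ v, secw ψ a v = t} with hS
  have hSf : S.Finite := by
    refine (hNf.biUnion fun a _ => hsec a).subset ?_
    rintro t ⟨-, -, a, ha, v, hv⟩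
    exact Set.mem_biUnion ha ⟨v, hv⟩
  refine ⟨S, hSf, fun s hs => ⟨hs.1, hs.2.1⟩, fun hΓ => ?_⟩
  set R := Subgroup.normalClosure S with hRdef
  have hR : R ≤ (phi ψ R).ker := by
    refine Subgroup.normalClosure_le_normal ?_
    rintro t ⟨h1, h2, a, ha, v, hv⟩
    refine (mem_ker_phi ψ R t).2 ⟨by rw [← root_tau, h2, root_one], fun x => ?_⟩
    refine Subgroup.subset_normalClosure ⟨finOrder_sec ψ h2 h1 x, ?_, a, ha, v ++ [x], ?_⟩
    · rw [← sec_tau, h2, sec_one]
    · rw [secw_append, hv]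
      rfl
  rw [← range_desc hR]
  refine C_range (desc ψ R hR) C hC hΓ ?_
  intro y hy
  obtain ⟨γ, rfl⟩ := QuotientGroup.mk_surjective y
  rw [tau_desc] at hy
  obtain ⟨n, hn⟩ := hN γ
  obtain ⟨m₀, hm₀⟩ := deep_torsion ψ hNf hN γ hy
  rw [mem_dying]
  refine ⟨max n m₀, mem_Km_const (desc ψ R hR) (max n m₀) 0 _ (by rw [tau_desc, hy]) ?_⟩
  intro v hv
  rw [secw_desc]
  refine (QuotientGroup.eq_one_iff _).2 (Subgroup.subset_normalClosure ⟨?_, ?_, ?_⟩)
  · exact hm₀ (max n m₀) (le_max_right _ _) v hv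
  · exact tau_secw_eq_one ψ hy v
  · exact ⟨_, hn v (by rw [hv]; exact le_max_left _ _), [], rfl⟩

/-- groups of automorphisms whose sections at some level are in the group given by the recursion -/
theorem levels_range [Finite X] (C : ∀ (G : Type) [Group G], Prop) (hC : Closed C)
    (h : C (tau ψ).range) (K : Subgroup (T X))
    (hK : ∀ g ∈ K, ∃ n : ℕ, ∀ v : List X, v.length = n → secw (toWr X) g v ∈ (tau ψ).range) :
    C K := by
  have hss : ∀ g ∈ (tau ψ).range, ∀ x, sec g x ∈ (tau ψ).range := by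
    rintro _ ⟨γ, rfl⟩ x
    rw [sec_tau]
    exact ⟨_, rfl⟩
  refine Pool.Agent.Y430.SS.t_union C hC K
    (fun n => (Lv (tau ψ).range n).comap K.subtype)
    (monotone_nat_of_le_succ fun n g hg => Lv_le_succ hss n hg) (fun g => ?_) ?_
  · obtain ⟨n, hn⟩ := hK g.1 g.2
    exact ⟨n, mem_Lv_of_secw hn⟩
  · intro n
    refine hC.of_injective _ (Lv (tau ψ).range n)
      { toFun := fun g => ⟨g.1.1, g.2⟩
        map_one' := rfl
        map_mul' := fun _ _ => rfl } ?_
      (Lv_closed C hC Pool.Agent.Y812.SS.t_wr (tau ψ).range h n)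
    intro a b hab
    have h2 : (a.1.1 : T X) = b.1.1 :=
      congrArg (fun z : Lv (tau ψ).range n => (z : T X)) hab
    exact Subtype.ext (Subtype.ext h2)

end tors

/-- the quotients of `Γ` by finitely many elements of finite order are in the class -/
def TorsionQuotients (C : ∀ (G : Type) [Group G], Prop) (Γ : Type) [Group Γ] : Prop :=
  ∀ S : Set Γ, S.Finite → (∀ s ∈ S, IsOfFinOrder s) → C (Γ ⧸ Subgroup.normalClosure S)

/-- the quotients of `A` by any set of elements of finite order are in the class -/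
def AllTorsionQuotients (C : ∀ (G : Type) [Group G], Prop) (A : Type) [Group A] : Prop :=
  ∀ S : Set A, (∀ s ∈ S, IsOfFinOrder s) → C (A ⧸ Subgroup.normalClosure S)

theorem allTQ_finite (C : ∀ (G : Type) [Group G], Prop) (hC : Closed C) (A : Type) [Group A]
    [Finite A] : AllTorsionQuotients C A :=
  fun _ _ => Pool.Agent.Y430.SS.of_finite hC _ inferInstance

theorem allTQ_torsionfree (C : ∀ (G : Type) [Group G], Prop) (hC : Closed C) (A : Type) [Group A]
    (hA : C A) (h : ∀ a : A, IsOfFinOrder a → a = 1) : AllTorsionQuotients C A := by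
  intro S hS
  have h1 : Subgroup.normalClosure S ≤ (MonoidHom.id A).ker := by
    refine Subgroup.normalClosure_le_normal ?_
    intro s hs
    exact h s (hS s hs)
  refine hC.of_injective _ A (QuotientGroup.lift _ (MonoidHom.id A) h1) ?_ hA
  rw [injective_iff_map_eq_one]
  intro y hy
  obtain ⟨a, rfl⟩ := QuotientGroup.mk_surjective y
  have h2 : a = 1 := hy
  rw [h2]
  rfl

theorem tq_coprodI (C : ∀ (G : Type) [Group G], Prop) (hC : Closed C) {ι : Type} (A : ι → Type)
    [∀ i, Group (A i)] (hA : ∀ i, AllTorsionQuotients C (A i)) :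
    TorsionQuotients C (Monoid.CoprodI A) := by
  intro S _ hS
  refine C_quot C hC S hS fun i => hA i _ ?_
  rintro a ⟨c, hc⟩
  have h1 := hS _ hc
  have h2 : Monoid.CoprodI.of a = MulAut.conj c⁻¹ (c * Monoid.CoprodI.of a * c⁻¹) := by
    rw [MulAut.conj_apply, inv_inv]
    group
  have h3 : IsOfFinOrder (Monoid.CoprodI.of a : Monoid.CoprodI A) := by
    rw [h2]
    exact (MulAut.conj c⁻¹).toMonoidHom.isOfFinOrder h1
  rw [isOfFinOrder_iff_pow_eq_one] at h3 ⊢
  obtain ⟨k, hk, h3⟩ := h3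
  refine ⟨k, hk, ?_⟩
  rw [← map_pow] at h3
  exact Monoid.CoprodI.of_injective i (h3.trans (map_one _).symm)

end Pool.Agent.U863.CT
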