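import Pool.Agent.U863.CT.TorsQ

/-!
# Quotients of free products by finitely many elements of finite order

Owner helper863.
-/

set_option autoImplicit false

namespace Pool.Agent.U863.CT

open Pool.Agent.Y462.SS
open Monoid.CoprodI (of)

section

variable {ι : Type} {M : ι → Type} [∀ i, Group (M i)]

/-- quotients of free products by conjugates of elements of the factors -/
theorem C_quot' (C : ∀ (G : Type) [Group G], Prop) (hC : Closed C) (S : Set (Monoid.CoprodI M))
    (R : ∀ i, Set (M i)) (hS : ∀ s ∈ S, s = 1 ∨ ∃ i, ∃ a ∈ R i, ∃ c, s = c * of a * c⁻¹)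
    (hR : ∀ i, ∀ a ∈ R i, ∃ c : Monoid.CoprodI M, c * of a * c⁻¹ ∈ S)
    (hA : ∀ i, C (M i ⧸ Subgroup.normalClosure (R i))) :
    C (Monoid.CoprodI M ⧸ Subgroup.normalClosure S) := by
  let B : ι → Type := fun i => M i ⧸ Subgroup.normalClosure (R i)
  let f : Monoid.CoprodI M →* Monoid.CoprodI B :=
    Monoid.CoprodI.lift fun i =>
      (of (M := B) (i := i)).comp (QuotientGroup.mk' (Subgroup.normalClosure (R i)))
  have hf : Subgroup.normalClosure S ≤ f.ker := by
    refine Subgroup.normalClosure_le_normal ?_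
    intro s hs
    show f s = 1
    rcases hS s hs with rfl | ⟨i, a, ha, c, rfl⟩
    · exact map_one f
    · have h1 : f (of a) = 1 := by
        rw [Monoid.CoprodI.lift_of]
        show of (M := B) (i := i) (QuotientGroup.mk a) = 1
        have h2 : (QuotientGroup.mk a : B i) = 1 :=
          (QuotientGroup.eq_one_iff a).2 (Subgroup.subset_normalClosure ha)
        rw [h2, map_one]
      rw [map_mul, map_mul, map_inv, h1, mul_one, mul_inv_cancel]
  let F : Monoid.CoprodI M ⧸ Subgroup.normalClosure S →* Monoid.CoprodI B :=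
    QuotientGroup.lift _ f hf
  let q : Monoid.CoprodI M →* Monoid.CoprodI M ⧸ Subgroup.normalClosure S :=
    QuotientGroup.mk' _
  let K : Monoid.CoprodI B →* Monoid.CoprodI M ⧸ Subgroup.normalClosure S :=
    Monoid.CoprodI.lift fun i =>
      QuotientGroup.lift (Subgroup.normalClosure (R i)) (q.comp (of (M := M) (i := i))) (by
        have h1 : Subgroup.normalClosure (R i) ≤ (q.comp (of (M := M) (i := i))).ker := by
          refine Subgroup.normalClosure_le_normal ?_
          intro a ha
          obtain ⟨c, hc⟩ := hR i a ha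
          show q (of a) = 1
          have h2 : q (c * of a * c⁻¹) = 1 :=
            (QuotientGroup.eq_one_iff _).2 (Subgroup.subset_normalClosure hc)
          rw [map_mul, map_mul, map_inv] at h2
          have h3 : q (of a) = (q c)⁻¹ * (q c * q (of a) * (q c)⁻¹) * q c := by group
          rw [h3, h2]
          group
        exact fun a ha => h1 ha)
  have hKF : ∀ y, K (F y) = y := by
    intro y
    obtain ⟨g, rfl⟩ := QuotientGroup.mk'_surjective _ y
    have h1 : (K.comp f) = q := by
      apply Monoid.CoprodI.ext_hom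
      intro i
      ext a
      show K (f (of a)) = q (of a)
      rw [Monoid.CoprodI.lift_of]
      show K (of (M := B) (i := i) (QuotientGroup.mk a)) = q (of a)
      rw [Monoid.CoprodI.lift_of]
      rfl
    exact DFunLike.congr_fun h1 g
  exact hC.of_injective _ _ F (Function.LeftInverse.injective hKF) (C_coprodI C hC hA)

/-- if the quotients of the factors by finitely many elements of finite order are in the class, so are
those of their free product -/
theorem tq_coprodI' (C : ∀ (G : Type) [Group G], Prop) (hC : Closed C)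
    (hA : ∀ i, TorsionQuotients C (M i)) : TorsionQuotients C (Monoid.CoprodI M) := by
  classical
  intro S hSf hS
  have key : ∀ s : S, ∃ x : Option (Σ i, M i), (s.1 = 1 ∧ x = none) ∨
      ∃ (y : Σ i, M i) (c : Monoid.CoprodI M), x = some y ∧ s.1 = c * of y.2 * c⁻¹ := by
    rintro ⟨s, hs⟩
    rcases torsion_coprodI s (hS s hs) with h | ⟨i, a, c, h⟩
    · exact ⟨none, Or.inl ⟨h, rfl⟩⟩
    · exact ⟨some ⟨i, a⟩, Or.inr ⟨⟨i, a⟩, c, rfl, h⟩⟩
  choose x hx using key
  have : Finite S := hSf
  let R : ∀ i, Set (M i) := fun i => {a | some ⟨i, a⟩ ∈ Set.range x}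
  refine C_quot' C hC S R ?_ ?_ fun i => hA i _ ?_ ?_
  · intro s hs
    rcases hx ⟨s, hs⟩ with ⟨h, -⟩ | ⟨y, c, h, h'⟩
    · exact Or.inl h
    · exact Or.inr ⟨y.1, y.2, ⟨⟨s, hs⟩, h⟩, c, h'⟩
  · rintro i a ⟨s, hs⟩
    rcases hx s with ⟨-, h⟩ | ⟨y, c, h, h'⟩
    · rw [h] at hs
      exact absurd hs (by simp)
    · have h1 : y = ⟨i, a⟩ := Option.some.inj (h.symm.trans hs)
      subst h1
      exact ⟨c, h' ▸ s.2⟩
  · have h1 : (Set.range x).Finite := Set.finite_range x
    refine Set.Finite.of_finite_image (f := fun a : M i => (some ⟨i, a⟩ : Option (Σ i, M i)))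
      (h1.subset ?_) ?_
    · rintro _ ⟨a, ha, rfl⟩
      exact ha
    · intro a _ b _ hab
      have h2 := Option.some.inj hab
      exact eq_of_heq (Sigma.mk.inj h2).2
  · rintro a ⟨s, hs⟩
    rcases hx s with ⟨-, h⟩ | ⟨y, c, h, h'⟩
    · rw [h] at hs
      exact absurd hs (by simp)
    · have h1 : y = ⟨i, a⟩ := Option.some.inj (h.symm.trans hs)
      subst h1
      have h1 := hS _ s.2
      rw [h'] at h1
      have h2 : (of a : Monoid.CoprodI M) = MulAut.conj c⁻¹ (c * of a * c⁻¹) := by
        rw [MulAut.conj_apply, inv_inv]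
        group
      have h3 : IsOfFinOrder (of a : Monoid.CoprodI M) := by
        rw [h2]
        exact (MulAut.conj c⁻¹).toMonoidHom.isOfFinOrder h1
      rw [isOfFinOrder_iff_pow_eq_one] at h3 ⊢
      obtain ⟨k, hk, h3⟩ := h3
      refine ⟨k, hk, ?_⟩
      rw [← map_pow] at h3
      exact Monoid.CoprodI.of_injective i (h3.trans (map_one _).symm)

theorem tq_finite (C : ∀ (G : Type) [Group G], Prop) (hC : Closed C) (A : Type) [Group A]
    [Finite A] : TorsionQuotients C A :=
  fun _ _ _ => Pool.Agent.Y430.SS.of_finite hC _ inferInstance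

theorem tq_torsionfree (C : ∀ (G : Type) [Group G], Prop) (hC : Closed C) (A : Type) [Group A]
    (hA : C A) (h : ∀ a : A, IsOfFinOrder a → a = 1) : TorsionQuotients C A :=
  fun S _ hS => allTQ_torsionfree C hC A hA h S hS

end

end Pool.Agent.U863.CT
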